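import Mathlib

/-! The sawtooth function and the second Bernoulli function. -/

set_option autoImplicit false

namespace Pool.Agent.Helper61A.DS

open Finset Filter Topology
open scoped Real

/-- sawtooth -/
noncomputable def sa (y : ℝ) : ℝ := 1 / 2 - Int.fract y

/-- the second Bernoulli function -/
noncomputable def b2 (y : ℝ) : ℝ := Int.fract y ^ 2 - Int.fract y + 1 / 6

lemma abs_sa_le (y : ℝ) : |sa y| ≤ 1 / 2 := by
  have h1 := Int.fract_nonneg y
  have h2 := Int.fract_lt_one y
  rw [sa, abs_le]; constructor <;> linarith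

lemma bern2 (x : ℝ) : (Polynomial.map (algebraMap ℚ ℝ) (Polynomial.bernoulli 2)).eval x =
    x ^ 2 - x + 1 / 6 := by
  simp_rw [Polynomial.bernoulli, Finset.sum_range_succ, Polynomial.map_add, Polynomial.eval_add,
    Polynomial.map_monomial, Polynomial.eval_monomial]
  rw [Finset.sum_range_zero, Polynomial.map_zero, Polynomial.eval_zero, zero_add, bernoulli_one]
  rw [bernoulli_eq_bernoulli'_of_ne_one zero_ne_one, bernoulli'_zero,
    bernoulli_eq_bernoulli'_of_ne_one (by decide : 2 ≠ 1), bernoulli'_two]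
  norm_num
  ring

lemma cos_fract (n : ℕ) (y : ℝ) : Real.cos (2 * π * n * Int.fract y) = Real.cos (2 * π * n * y) := by
  have h : 2 * π * n * y = 2 * π * n * Int.fract y + ((n * ⌊y⌋ : ℤ) : ℝ) * (2 * π) := by
    conv_lhs => rw [← Int.floor_add_fract y]
    push_cast; ring
  rw [h, Real.cos_add_int_mul_two_pi]

lemma b2_hasSum (y : ℝ) :
    HasSum (fun n : ℕ => 1 / (n : ℝ) ^ 2 * Real.cos (2 * π * n * y)) (π ^ 2 * b2 y) := by
  have h := hasSum_one_div_nat_pow_mul_cos (k := 1) one_ne_zero (x := Int.fract y)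
    ⟨Int.fract_nonneg y, (Int.fract_lt_one y).le⟩
  have e : ((-1 : ℝ) ^ (1 + 1) * (2 * π) ^ (2 * 1) / 2 / (2 * 1).factorial *
      (Polynomial.map (algebraMap ℚ ℝ) (Polynomial.bernoulli (2 * 1))).eval (Int.fract y)) =
      π ^ 2 * b2 y := by
    rw [show 2 * 1 = 2 from rfl, bern2, b2]
    have : ((2 : ℕ).factorial : ℝ) = 2 := by norm_num [Nat.factorial]
    rw [this]
    ring
  rw [e] at h
  refine h.congr_fun fun n => ?_
  rw [cos_fract]


lemma fract_add_lt {y δ : ℝ} (h0 : 0 ≤ δ) (h : Int.fract y < 1 - δ) :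
    Int.fract (y + δ) = Int.fract y + δ := by
  rw [Int.fract_eq_iff]
  refine ⟨by have := Int.fract_nonneg y; linarith, by linarith, ⟨⌊y⌋, ?_⟩⟩
  have := Int.floor_add_fract y
  linarith

lemma fract_add_ge {y δ : ℝ} (h1 : δ ≤ 1) (h : 1 - δ ≤ Int.fract y) :
    Int.fract (y + δ) = Int.fract y + δ - 1 := by
  rw [Int.fract_eq_iff]
  refine ⟨by linarith, by have := Int.fract_lt_one y; linarith, ⟨⌊y⌋ + 1, ?_⟩⟩
  have := Int.floor_add_fract y
  push_cast
  linarith

/-- The sawtooth function is close to a difference quotient of the Bernoulli function, away from its jump. -/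
lemma sa_approx (y : ℝ) {δ : ℝ} (h0 : 0 < δ) (h1 : δ < 1) :
    |sa y - (b2 y - b2 (y + δ)) / (2 * δ)| ≤ 3 * δ / 2 + (sa (y + δ) - sa y) := by
  rcases lt_or_ge (Int.fract y) (1 - δ) with h | h
  · have e := fract_add_lt h0.le h
    have e2 : sa y - (b2 y - b2 (y + δ)) / (2 * δ) = δ / 2 := by
      simp only [sa, b2, e]
      field_simp
      ring
    rw [e2, abs_of_pos (by positivity)]
    simp only [sa, e]
    linarith
  · have e := fract_add_ge h1.le h
    have h2 := Int.fract_lt_one y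
    have e2 : sa y - (b2 y - b2 (y + δ)) / (2 * δ) = δ / 2 - (Int.fract y + δ - 1) / δ := by
      simp only [sa, b2, e]
      field_simp
      ring
    have h3 : 0 ≤ (Int.fract y + δ - 1) / δ := div_nonneg (by linarith) h0.le
    have h4 : (Int.fract y + δ - 1) / δ ≤ 1 := by rw [div_le_one h0]; linarith
    rw [e2]
    simp only [sa, e]
    rw [abs_le]; constructor <;> linarith

lemma fract_indicator (y : ℝ) {α β : ℝ} (h0 : 0 ≤ α) (h1 : α ≤ β) (h2 : β ≤ 1) :
    (if α ≤ Int.fract y ∧ Int.fract y < β then (1 : ℝ) else 0) - (β - α) = sa (y - α) - sa (y - β) := by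
  have hy0 := Int.fract_nonneg y
  have hy1 := Int.fract_lt_one y
  have key : ∀ γ : ℝ, 0 ≤ γ → γ ≤ 1 → Int.fract (y - γ) =
      if γ ≤ Int.fract y then Int.fract y - γ else Int.fract y - γ + 1 := by
    intro γ g0 g1
    split_ifs with h
    · rw [Int.fract_eq_iff]
      refine ⟨by linarith, by linarith, ⟨⌊y⌋, ?_⟩⟩
      have := Int.floor_add_fract y
      linarith
    · push Not at h
      rw [Int.fract_eq_iff]
      refine ⟨by linarith, by linarith, ⟨⌊y⌋ - 1, ?_⟩⟩
      have := Int.floor_add_fract y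
      push_cast
      linarith
  rw [sa, sa, key α h0 (h1.trans h2), key β (h0.trans h1) h2]
  by_cases ha : α ≤ Int.fract y <;> by_cases hb : β ≤ Int.fract y
  · rw [if_neg (fun h => absurd h.2 (not_lt.2 hb)), if_pos ha, if_pos hb]; ring
  · rw [if_pos ⟨ha, not_le.1 hb⟩, if_pos ha, if_neg hb]; ring
  · exact absurd (h1.trans hb) ha
  · rw [if_neg (fun h => ha h.1), if_neg ha, if_neg hb]; ring

lemma b2_continuous : Continuous b2 := by
  have h : ∀ y, b2 y = (∑' n : ℕ, 1 / (n : ℝ) ^ 2 * Real.cos (2 * π * n * y)) / π ^ 2 := by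
    intro y
    rw [(b2_hasSum y).tsum_eq, mul_div_cancel_left₀ _ (by positivity)]
  rw [show b2 = fun y => (∑' n : ℕ, 1 / (n : ℝ) ^ 2 * Real.cos (2 * π * n * y)) / π ^ 2 from funext h]
  refine Continuous.div_const ?_ _
  refine continuous_tsum (u := fun n : ℕ => 1 / (n : ℝ) ^ 2) (fun n => by fun_prop) ?_ ?_
  · exact Real.summable_one_div_nat_pow.2 one_lt_two
  · intro n y
    rw [norm_mul, Real.norm_eq_abs, Real.norm_eq_abs, abs_of_nonneg (by positivity)]
    exact mul_le_of_le_one_right (by positivity) (Real.abs_cos_le_one _)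

lemma b2_deriv (y : ℝ) : HasDerivWithinAt b2 (-2 * sa y) (Set.Ici y) y := by
  have h2 := Int.fract_lt_one y
  have h1 : HasDerivAt (fun z : ℝ => (z - ⌊y⌋) ^ 2 - (z - ⌊y⌋) + 1 / 6) (-2 * sa y) y := by
    have := (((hasDerivAt_id y).sub_const (⌊y⌋ : ℝ)).pow 2).sub ((hasDerivAt_id y).sub_const (⌊y⌋ : ℝ))
    have := this.add_const (1 / 6 : ℝ)
    refine this.congr_deriv ?_
    simp only [sa, id]
    have := Int.floor_add_fract y
    push_cast
    norm_num
    linarith
  refine (h1.hasDerivWithinAt (s := Set.Ici y)).congr_of_eventuallyEq ?_ ?_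
  · have : ∀ᶠ z in 𝓝[Set.Ici y] y, z < y + (1 - Int.fract y) :=
      nhdsWithin_le_nhds (Iio_mem_nhds (by linarith))
    filter_upwards [this, self_mem_nhdsWithin] with z hz hz2
    have hz2 : y ≤ z := hz2
    have e : Int.fract z = z - ⌊y⌋ := by
      rw [Int.fract_eq_iff]
      have := Int.floor_add_fract y
      have := Int.fract_nonneg y
      refine ⟨by linarith, by linarith, ⟨⌊y⌋, by ring⟩⟩
    rw [b2, e]
  · have e : Int.fract y = y - ⌊y⌋ := rfl
    rw [b2, e]

end Pool.Agent.Helper61A.DS
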