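import Mathlib
import Pool.Agent.Helper61A.DS.Saw
import Pool.Agent.H807R2.Dav1
import Pool.Agent.H409R2.MZ.Tri

/-! Sums of the sawtooth function with coefficients. -/

set_option autoImplicit false

namespace Pool.Agent.Helper61A.DS

open Finset Filter Topology
open scoped Real
open Pool.Agent.H807R2.Dav (ee norm_ee ee_add ee_zero ee_int ee_add_int ee_pow)

lemma re_ee (x : ℝ) : (ee x).re = Real.cos (2 * π * x) := by
  rw [Pool.Agent.H807R2.Dav.ee_eq, Complex.exp_ofReal_mul_I_re]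

lemma cos_sum_bound (a : ℕ → ℝ) (s : Finset ℕ) {E : ℝ}
    (hE : ∀ α : ℝ, ‖∑ k ∈ s, (a k : ℂ) * ee ((k : ℝ) * α)‖ ≤ E) (n : ℕ) (t β : ℝ) :
    |∑ k ∈ s, a k * Real.cos (2 * π * n * (k * t - β))| ≤ E := by
  have h1 : ∑ k ∈ s, a k * Real.cos (2 * π * n * (k * t - β)) =
      (ee (-(n * β)) * ∑ k ∈ s, (a k : ℂ) * ee ((k : ℝ) * (n * t))).re := by
    rw [mul_sum, Complex.re_sum]
    refine sum_congr rfl fun k _ => ?_
    have h2 : ee (-(n * β)) * ((a k : ℂ) * ee ((k : ℝ) * (n * t))) =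
        (a k : ℂ) * ee (n * (k * t - β)) := by
      rw [show (n : ℝ) * (k * t - β) = -(n * β) + (k : ℝ) * (n * t) by ring, ee_add]
      ring
    rw [h2, Complex.re_ofReal_mul, re_ee]
    congr 2
    ring
  rw [h1]
  refine (Complex.abs_re_le_norm _).trans ?_
  rw [norm_mul, norm_ee, one_mul]
  exact hE _

lemma b2_sum_bound (a : ℕ → ℝ) (s : Finset ℕ) {E : ℝ}
    (hE : ∀ α : ℝ, ‖∑ k ∈ s, (a k : ℂ) * ee ((k : ℝ) * α)‖ ≤ E) (t β : ℝ) :
    |∑ k ∈ s, a k * b2 (k * t - β)| ≤ E / 6 := by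
  have h1 : HasSum (fun n : ℕ => 1 / (n : ℝ) ^ 2 *
      ∑ k ∈ s, a k * Real.cos (2 * π * n * (k * t - β))) (π ^ 2 * ∑ k ∈ s, a k * b2 (k * t - β)) := by
    have h2 : HasSum (fun n : ℕ => ∑ k ∈ s, a k * (1 / (n : ℝ) ^ 2 * Real.cos (2 * π * n * (k * t - β))))
        (∑ k ∈ s, a k * (π ^ 2 * b2 (k * t - β))) :=
      hasSum_sum fun k _ => (b2_hasSum _).mul_left _
    have e1 : ∑ k ∈ s, a k * (π ^ 2 * b2 (k * t - β)) = π ^ 2 * ∑ k ∈ s, a k * b2 (k * t - β) := by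
      rw [mul_sum]; exact sum_congr rfl fun k _ => by ring
    rw [e1] at h2
    refine h2.congr_fun fun n => ?_
    rw [mul_sum]
    exact sum_congr rfl fun k _ => by ring
  have h3 : HasSum (fun n : ℕ => 1 / (n : ℝ) ^ 2 * E) (π ^ 2 / 6 * E) := hasSum_zeta_two.mul_right E
  have h4 : ∀ n : ℕ, ‖1 / (n : ℝ) ^ 2 * ∑ k ∈ s, a k * Real.cos (2 * π * n * (k * t - β))‖ ≤
      1 / (n : ℝ) ^ 2 * E := by
    intro n
    rw [norm_mul, Real.norm_eq_abs, Real.norm_eq_abs, abs_of_nonneg (by positivity)]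
    exact mul_le_mul_of_nonneg_left (cos_sum_bound a s hE n t β) (by positivity)
  have h5 := h1.norm_le_of_bounded h3 h4
  rw [norm_mul, Real.norm_eq_abs, Real.norm_eq_abs, abs_of_nonneg (by positivity)] at h5
  have hp : (0 : ℝ) < π ^ 2 := by positivity
  have h6 : π ^ 2 * |∑ k ∈ s, a k * b2 (k * t - β)| ≤ π ^ 2 * (E / 6) := by linarith
  exact le_of_mul_le_mul_left h6 hp

/-- sums over `k` of `sa` for a real with a rational approximation -/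
lemma sa_long {t : ℝ} {p : ℤ} {q : ℕ} (hq : 0 < q) (hcop : IsCoprime p (q : ℤ))
    (h : |t - p / q| ≤ 1 / (q : ℝ) ^ 2) (β : ℝ) (J : ℕ) :
    |∑ k ∈ range J, sa (k * t - β)| ≤ 3 * (J / q) + q / 2 := by
  have h1 := Pool.Agent.H409R2.MZ.Tri.long_sum (-t) (-p) q hq (by simpa using hcop.neg_left)
    (by
      have : -t - ((-p : ℤ) : ℝ) / q = -(t - p / q) := by push_cast; ring
      rw [this, abs_neg]; exact h) (-β) J
  have h2 : ∑ k ∈ range J, sa (k * t - β) = -∑ k ∈ range J, (Int.fract (-β - k * -t) - 1 / 2) := by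
    rw [← sum_neg_distrib]
    refine sum_congr rfl fun k _ => ?_
    rw [sa, show -β - (k : ℝ) * -t = k * t - β by ring]
    ring
  rw [h2, abs_neg]
  exact h1

/-- the bound on the minor arcs -/
lemma minor_bound {N : ℕ} (a : ℕ → ℝ) (ha : ∀ k, |a k| ≤ 1) (s : Finset ℕ) (hs : s ⊆ range (N + 1)) {E δ : ℝ}
    (h0 : 0 < δ) (h1 : δ < 1)
    (hE : ∀ α : ℝ, ‖∑ k ∈ s, (a k : ℂ) * ee ((k : ℝ) * α)‖ ≤ E)
    {t : ℝ} {p : ℤ} {q : ℕ} (hq : 0 < q) (hcop : IsCoprime p (q : ℤ))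
    (h : |t - p / q| ≤ 1 / (q : ℝ) ^ 2) (β : ℝ) :
    |∑ k ∈ s, a k * sa (k * t - β)| ≤ E / (6 * δ) + 3 * δ / 2 * (N + 1) + 2 * (3 * ((N + 1) / q) + q / 2) := by
  have e1 : ∑ k ∈ s, a k * sa (k * t - β) =
      ∑ k ∈ s, a k * (sa (k * t - β) - (b2 (k * t - β) - b2 (k * t - β + δ)) / (2 * δ)) +
      (∑ k ∈ s, a k * b2 (k * t - β) - ∑ k ∈ s, a k * b2 (k * t - (β - δ))) / (2 * δ) := by
    rw [← sum_sub_distrib, sum_div, ← sum_add_distrib]
    refine sum_congr rfl fun k _ => ?_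
    rw [show (k : ℝ) * t - (β - δ) = k * t - β + δ by ring]
    ring
  have h2 : |∑ k ∈ s, a k * (sa (k * t - β) - (b2 (k * t - β) - b2 (k * t - β + δ)) / (2 * δ))| ≤
      3 * δ / 2 * (N + 1) + 2 * (3 * ((N + 1) / q) + q / 2) := by
    calc |∑ k ∈ s, a k * (sa (k * t - β) - (b2 (k * t - β) - b2 (k * t - β + δ)) / (2 * δ))|
        ≤ ∑ k ∈ s, |a k * (sa (k * t - β) - (b2 (k * t - β) - b2 (k * t - β + δ)) / (2 * δ))| :=
          abs_sum_le_sum_abs _ _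
      _ ≤ ∑ k ∈ s, (3 * δ / 2 + (sa (k * t - β + δ) - sa (k * t - β))) := by
          refine sum_le_sum fun k _ => ?_
          rw [abs_mul]
          calc |a k| * |sa (k * t - β) - (b2 (k * t - β) - b2 (k * t - β + δ)) / (2 * δ)| ≤
              1 * (3 * δ / 2 + (sa (k * t - β + δ) - sa (k * t - β))) :=
                mul_le_mul (ha k) (sa_approx _ h0 h1) (abs_nonneg _) zero_le_one
            _ = _ := one_mul _
      _ ≤ ∑ k ∈ range (N + 1), (3 * δ / 2 + (sa (k * t - β + δ) - sa (k * t - β))) := by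
          refine sum_le_sum_of_subset_of_nonneg hs fun k _ _ => ?_
          exact (abs_nonneg _).trans (sa_approx (k * t - β) h0 h1)
      _ = 3 * δ / 2 * (N + 1) + (∑ k ∈ range (N + 1), sa (k * t - (β - δ)) -
            ∑ k ∈ range (N + 1), sa (k * t - β)) := by
          rw [sum_add_distrib, sum_const, card_range, nsmul_eq_mul, sum_sub_distrib]
          have : ∀ k : ℕ, (k : ℝ) * t - (β - δ) = k * t - β + δ := fun k => by ring
          simp only [this]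
          push_cast
          ring
      _ ≤ 3 * δ / 2 * (N + 1) + 2 * (3 * ((N + 1) / q) + q / 2) := by
          have a1 := abs_le.1 (sa_long hq hcop h (β - δ) (N + 1))
          have a2 := abs_le.1 (sa_long hq hcop h β (N + 1))
          push_cast at a1 a2
          linarith [a1.2, a2.1]
  have h3 := abs_le.1 (b2_sum_bound a s hE t β)
  have h4 := abs_le.1 (b2_sum_bound a s hE t (β - δ))
  have h5 : |(∑ k ∈ s, a k * b2 (k * t - β) - ∑ k ∈ s, a k * b2 (k * t - (β - δ))) / (2 * δ)| ≤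
      E / (6 * δ) := by
    rw [abs_div, abs_of_pos (by positivity : 0 < 2 * δ), div_le_div_iff₀ (by positivity) (by positivity)]
    have : |∑ k ∈ s, a k * b2 (k * t - β) - ∑ k ∈ s, a k * b2 (k * t - (β - δ))| ≤ E / 3 := by
      rw [abs_le]; constructor <;> linarith [h3.1, h3.2, h4.1, h4.2]
    nlinarith
  rw [e1]
  refine (abs_add_le _ _).trans ?_
  linarith

/-- Abel summation -/
lemma abel_id (a G : ℕ → ℝ) (n : ℕ) : ∑ k ∈ Icc 1 n, a k * G k =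
    (∑ k ∈ Icc 1 n, a k) * G n - ∑ k ∈ range n, (∑ i ∈ Icc 1 k, a i) * (G (k + 1) - G k) := by
  induction n with
  | zero => simp
  | succ n ih =>
    rw [sum_Icc_succ_top (by omega), sum_Icc_succ_top (by omega), sum_range_succ, ih]
    ring

lemma abel_bd (a G : ℕ → ℝ) (N : ℕ) {M V : ℝ} (hM : ∀ y ≤ N, |∑ k ∈ Icc 1 y, a k| ≤ M)
    (hG : |G N| ≤ 1 / 2) (hV : ∑ k ∈ range N, |G (k + 1) - G k| ≤ V) :
    |∑ k ∈ Icc 1 N, a k * G k| ≤ M * (1 / 2 + V) := by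
  have hM0 : 0 ≤ M := (abs_nonneg _).trans (hM 0 (by omega))
  rw [abel_id]
  refine (abs_sub _ _).trans ?_
  have h1 : |(∑ k ∈ Icc 1 N, a k) * G N| ≤ M * (1 / 2) := by
    rw [abs_mul]
    exact mul_le_mul (hM N le_rfl) hG (abs_nonneg _) hM0
  have h2 : |∑ k ∈ range N, (∑ i ∈ Icc 1 k, a i) * (G (k + 1) - G k)| ≤ M * V := by
    calc _ ≤ ∑ k ∈ range N, |(∑ i ∈ Icc 1 k, a i) * (G (k + 1) - G k)| := abs_sum_le_sum_abs _ _
      _ ≤ ∑ k ∈ range N, M * |G (k + 1) - G k| := by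
          refine sum_le_sum fun k hk => ?_
          rw [abs_mul]
          exact mul_le_mul_of_nonneg_right (hM k (mem_range.1 hk).le) (abs_nonneg _)
      _ = M * ∑ k ∈ range N, |G (k + 1) - G k| := by rw [mul_sum]
      _ ≤ M * V := mul_le_mul_of_nonneg_left hV hM0
  linarith

/-- the variation of the floors along an arithmetic progression -/
lemma floor_var (α θ : ℝ) (N : ℕ) :
    ∑ k ∈ range N, |((⌊α + ((k + 1 : ℕ) : ℝ) * θ⌋ : ℤ) : ℝ) - ((⌊α + (k : ℝ) * θ⌋ : ℤ) : ℝ)| ≤ N * |θ| + 1 := by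
  have key : ∀ x y : ℝ, x ≤ y → ((⌊y⌋ : ℤ) : ℝ) - ((⌊x⌋ : ℤ) : ℝ) ≤ (y - x) + 1 := by
    intro x y _
    have h1 := Int.floor_le y
    have h2 := Int.lt_floor_add_one x
    linarith
  rcases le_total 0 θ with h | h
  · have e : ∀ k ∈ range N, |((⌊α + ((k + 1 : ℕ) : ℝ) * θ⌋ : ℤ) : ℝ) - ((⌊α + (k : ℝ) * θ⌋ : ℤ) : ℝ)| =
        ((⌊α + ((k + 1 : ℕ) : ℝ) * θ⌋ : ℤ) : ℝ) - ((⌊α + (k : ℝ) * θ⌋ : ℤ) : ℝ) := by
      intro k _
      refine abs_of_nonneg (sub_nonneg.2 ?_)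
      exact_mod_cast Int.floor_le_floor (by push_cast; nlinarith)
    rw [sum_congr rfl e, sum_range_sub (fun k : ℕ => ((⌊α + (k : ℝ) * θ⌋ : ℤ) : ℝ))]
    rw [abs_of_nonneg h]
    have := key (α + ((0 : ℕ) : ℝ) * θ) (α + (N : ℝ) * θ) (by
      have : (0 : ℝ) ≤ N * θ := by positivity
      push_cast; linarith)
    push_cast at this ⊢
    linarith
  · have e : ∀ k ∈ range N, |((⌊α + ((k + 1 : ℕ) : ℝ) * θ⌋ : ℤ) : ℝ) - ((⌊α + (k : ℝ) * θ⌋ : ℤ) : ℝ)| =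
        (-((⌊α + ((k + 1 : ℕ) : ℝ) * θ⌋ : ℤ) : ℝ)) - (-((⌊α + (k : ℝ) * θ⌋ : ℤ) : ℝ)) := by
      intro k _
      rw [abs_of_nonpos]
      · ring
      · rw [sub_nonpos]
        exact_mod_cast Int.floor_le_floor (by push_cast; nlinarith)
    rw [sum_congr rfl e, sum_range_sub (fun k : ℕ => -((⌊α + (k : ℝ) * θ⌋ : ℤ) : ℝ))]
    rw [abs_of_nonpos h]
    have := key (α + (N : ℝ) * θ) (α + ((0 : ℕ) : ℝ) * θ) (by
      have : (N : ℝ) * θ ≤ 0 := mul_nonpos_of_nonneg_of_nonpos (Nat.cast_nonneg N) h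
      push_cast; linarith)
    push_cast at this ⊢
    linarith

lemma sa_var (α θ : ℝ) (N : ℕ) :
    ∑ k ∈ range N, |sa (α + ((k + 1 : ℕ) : ℝ) * θ) - sa (α + (k : ℝ) * θ)| ≤ 2 * (N * |θ|) + 1 := by
  have h1 : ∀ k ∈ range N, |sa (α + ((k + 1 : ℕ) : ℝ) * θ) - sa (α + (k : ℝ) * θ)| ≤
      |θ| + |((⌊α + ((k + 1 : ℕ) : ℝ) * θ⌋ : ℤ) : ℝ) - ((⌊α + (k : ℝ) * θ⌋ : ℤ) : ℝ)| := by
    intro k _
    have : sa (α + ((k + 1 : ℕ) : ℝ) * θ) - sa (α + (k : ℝ) * θ) =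
        -θ + (((⌊α + ((k + 1 : ℕ) : ℝ) * θ⌋ : ℤ) : ℝ) - ((⌊α + (k : ℝ) * θ⌋ : ℤ) : ℝ)) := by
      have e1 := Int.floor_add_fract (α + ((k + 1 : ℕ) : ℝ) * θ)
      have e2 := Int.floor_add_fract (α + (k : ℝ) * θ)
      rw [sa, sa]
      push_cast at e1 ⊢
      linarith
    rw [this]
    refine (abs_add_le _ _).trans ?_
    rw [abs_neg]
  refine (sum_le_sum h1).trans ?_
  rw [sum_add_distrib, sum_const, card_range, nsmul_eq_mul]
  have := floor_var α θ N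
  linarith

end Pool.Agent.Helper61A.DS
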