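import Mathlib
import Pool.Agent.Helper61A.DS.Arc
import Pool.Agent.H373R2.T7.SupMu

/-! The Moebius function is orthogonal to the sawtooth function of `k t - β`, uniformly, in residue classes. -/

set_option autoImplicit false

namespace Pool.Agent.Helper61A.DS

open Finset Filter Topology
open scoped Real
open Pool.Agent.H807R2.Dav (ee norm_ee ee_add ee_zero ee_int ee_add_int ee_pow)
open Pool.Agent.H373R2.T7 (muR muR_abs)

lemma ee_eq_one_iff (x : ℝ) : ee x = 1 ↔ ∃ n : ℤ, x = n := by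
  rw [ee, Complex.exp_eq_one_iff]
  refine exists_congr fun n => ?_
  have h : (2 * (π : ℂ) * Complex.I) ≠ 0 := Complex.two_pi_I_ne_zero
  constructor
  · intro h1
    rw [mul_comm (n : ℂ)] at h1
    have := mul_left_cancel₀ h h1
    exact_mod_cast this
  · intro h1
    rw [h1]; push_cast; ring

lemma ind_mod {m : ℕ} (hm : 0 < m) (k r : ℕ) :
    ∑ j ∈ range m, ee ((j : ℝ) * (((k : ℝ) - r) / m)) = if k ≡ r [MOD m] then (m : ℂ) else 0 := by
  have hm' : (m : ℝ) ≠ 0 := by exact_mod_cast hm.ne'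
  have e : ∀ j : ℕ, ee ((j : ℝ) * (((k : ℝ) - r) / m)) = ee (((k : ℝ) - r) / m) ^ j := fun j => ee_pow _ j
  simp only [e]
  have key : k ≡ r [MOD m] ↔ ee (((k : ℝ) - r) / m) = 1 := by
    rw [ee_eq_one_iff]
    constructor
    · intro h
      have h2 := (Nat.modEq_iff_dvd.1 h.symm)
      obtain ⟨c, hc⟩ := h2
      refine ⟨c, ?_⟩
      rw [div_eq_iff hm']
      have : ((k : ℤ) : ℝ) - ((r : ℤ) : ℝ) = (m : ℤ) * (c : ℤ) := by exact_mod_cast hc
      push_cast at this ⊢
      linarith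
    · rintro ⟨c, hc⟩
      rw [div_eq_iff hm'] at hc
      refine (Nat.modEq_iff_dvd.2 ⟨c, ?_⟩).symm
      have : ((k : ℤ) : ℝ) - ((r : ℤ) : ℝ) = ((m : ℤ) * (c : ℤ) : ℤ) := by
        push_cast at hc ⊢
        linarith
      exact_mod_cast this
  split_ifs with h
  · rw [key.1 h]; simp
  · have hz : ee (((k : ℝ) - r) / m) ≠ 1 := fun h' => h (key.2 h')
    rw [geom_sum_eq hz, ← ee_pow, show (m : ℝ) * (((k : ℝ) - r) / m) = (((k : ℤ) - (r : ℤ) : ℤ) : ℝ) by
      push_cast; field_simp, ee_int, sub_self, zero_div]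

lemma class_expo {a : ℕ → ℝ} {s : Finset ℕ} {E : ℝ}
    (hE : ∀ α : ℝ, ‖∑ k ∈ s, (a k : ℂ) * ee ((k : ℝ) * α)‖ ≤ E) {m : ℕ} (hm : 0 < m) (r : ℕ) (α : ℝ) :
    ‖∑ k ∈ s.filter (fun k => k ≡ r [MOD m]), (a k : ℂ) * ee ((k : ℝ) * α)‖ ≤ E := by
  have hmc : (m : ℂ) ≠ 0 := by exact_mod_cast hm.ne'
  have hm' : (0 : ℝ) < m := by exact_mod_cast hm
  have h1 : ∑ k ∈ s.filter (fun k => k ≡ r [MOD m]), (a k : ℂ) * ee ((k : ℝ) * α) =
      (1 / (m : ℂ)) * ∑ j ∈ range m, ee (-((j : ℝ) * (r / m))) *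
        ∑ k ∈ s, (a k : ℂ) * ee ((k : ℝ) * (α + j / m)) := by
    have h2 : ∑ j ∈ range m, ee (-((j : ℝ) * (r / m))) *
        ∑ k ∈ s, (a k : ℂ) * ee ((k : ℝ) * (α + j / m)) =
        ∑ k ∈ s, (a k : ℂ) * ee ((k : ℝ) * α) * ∑ j ∈ range m, ee ((j : ℝ) * (((k : ℝ) - r) / m)) := by
      simp only [mul_sum]
      rw [sum_comm]
      refine sum_congr rfl fun k _ => sum_congr rfl fun j _ => ?_
      have e : (k : ℝ) * α + (j : ℝ) * (((k : ℝ) - r) / m) = -((j : ℝ) * (r / m)) + (k : ℝ) * (α + j / m) := by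
        ring
      rw [mul_assoc, ← ee_add, e, ee_add]
      ring
    rw [h2, sum_filter, mul_sum]
    refine sum_congr rfl fun k _ => ?_
    rw [ind_mod hm]
    split_ifs
    · field_simp
    · simp
  rw [h1, norm_mul, norm_div, norm_one, Complex.norm_natCast]
  have h3 : ‖∑ j ∈ range m, ee (-((j : ℝ) * (r / m))) *
        ∑ k ∈ s, (a k : ℂ) * ee ((k : ℝ) * (α + j / m))‖ ≤ m * E := by
    refine (norm_sum_le _ _).trans ?_
    have : ∀ j ∈ range m, ‖ee (-((j : ℝ) * (r / m))) *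
        ∑ k ∈ s, (a k : ℂ) * ee ((k : ℝ) * (α + j / m))‖ ≤ E := by
      intro j _
      rw [norm_mul, norm_ee, one_mul]
      exact hE _
    refine (sum_le_sum this).trans ?_
    rw [sum_const, card_range, nsmul_eq_mul]
  calc 1 / (m : ℝ) * _ ≤ 1 / (m : ℝ) * (m * E) := mul_le_mul_of_nonneg_left h3 (by positivity)
    _ = E := by field_simp

/-- the major arcs -/
lemma major_bound {a : ℕ → ℝ} {N m q : ℕ} (hm : 0 < m) (hq : 0 < q) {M : ℝ}
    (hM : ∀ c : ℕ, ∀ y ≤ N, |∑ n ∈ (Icc 1 y).filter (fun n => n ≡ c [MOD q * m]), a n| ≤ M)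
    (t : ℝ) (p : ℤ) (β : ℝ) (r : ℕ) :
    |∑ k ∈ (Icc 1 N).filter (fun k => k ≡ r [MOD m]), a k * sa (k * t - β)| ≤
      (q * m) * (M * (3 / 2 + 2 * (N * |t - p / q|))) := by
  set θ : ℝ := t - p / q with hθ
  have hq' : (q : ℝ) ≠ 0 := by exact_mod_cast hq.ne'
  have hM0 : 0 ≤ M := (abs_nonneg _).trans (hM 0 0 (by omega))
  have hB0 : 0 ≤ M * (3 / 2 + 2 * (N * |θ|)) := by positivity
  have hcls : ∀ c ∈ range (q * m), |∑ k ∈ ((Icc 1 N).filter (fun k => k ≡ r [MOD m])).filter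
      (fun k => k % (q * m) = c), a k * sa (k * t - β)| ≤ M * (3 / 2 + 2 * (N * |θ|)) := by
    intro c hc
    rw [mem_range] at hc
    by_cases hcr : c ≡ r [MOD m]
    · have e1 : ((Icc 1 N).filter (fun k => k ≡ r [MOD m])).filter (fun k => k % (q * m) = c) =
          (Icc 1 N).filter (fun k => k ≡ c [MOD q * m]) := by
        ext k
        simp only [mem_filter, mem_Icc]
        constructor
        · rintro ⟨⟨h1, _⟩, h3⟩
          exact ⟨h1, by rw [Nat.ModEq, h3, Nat.mod_eq_of_lt hc]⟩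
        · rintro ⟨h1, h2⟩
          refine ⟨⟨h1, ?_⟩, by rw [Nat.ModEq, Nat.mod_eq_of_lt hc] at h2; exact h2⟩
          exact (h2.of_mul_left q).trans hcr
      rw [e1]
      set G : ℕ → ℝ := fun k => sa ((p * c / q - β) + (k : ℝ) * θ) with hG
      have e2 : ∀ k ∈ (Icc 1 N).filter (fun k => k ≡ c [MOD q * m]), a k * sa (k * t - β) = a k * G k := by
        intro k hk
        have hk2 : k ≡ c [MOD q * m] := (mem_filter.1 hk).2
        obtain ⟨d, hd⟩ := Nat.modEq_iff_dvd.1 (hk2.of_mul_right m).symm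
        have hd' : (k : ℝ) - c = q * d := by
          have : (((k : ℤ) - (c : ℤ) : ℤ) : ℝ) = (((q : ℤ) * d : ℤ) : ℝ) := by rw [hd]
          push_cast at this
          exact this
        have e3 : (k : ℝ) * t - β = ((p * c / q - β) + (k : ℝ) * θ) + ((p * d : ℤ) : ℝ) := by
          have ht : t = θ + p / q := by rw [hθ]; ring
          rw [ht]
          have : (k : ℝ) = c + q * d := by linarith
          push_cast
          rw [this]
          field_simp
          ring
        rw [hG]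
        simp only
        rw [e3, sa, Int.fract_add_intCast, ← sa]
      rw [sum_congr rfl e2]
      have e4 : ∑ k ∈ (Icc 1 N).filter (fun k => k ≡ c [MOD q * m]), a k * G k =
          ∑ k ∈ Icc 1 N, (if k ≡ c [MOD q * m] then a k else 0) * G k := by
        rw [sum_filter]
        refine sum_congr rfl fun k _ => ?_
        split_ifs <;> simp
      rw [e4]
      have := abel_bd (fun k => if k ≡ c [MOD q * m] then a k else 0) G N (M := M)
        (V := 2 * (N * |θ|) + 1) (by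
          intro y hy
          rw [← sum_filter]
          exact hM c y hy) (abs_sa_le _) (sa_var _ _ _)
      refine this.trans (le_of_eq ?_)
      ring
    · have e1 : ((Icc 1 N).filter (fun k => k ≡ r [MOD m])).filter (fun k => k % (q * m) = c) = ∅ := by
        rw [filter_eq_empty_iff]
        intro k hk h3
        apply hcr
        have h4 : k ≡ c [MOD q * m] := by rw [Nat.ModEq, h3, Nat.mod_eq_of_lt hc]
        exact (h4.of_mul_left q).symm.trans (mem_filter.1 hk).2
      rw [e1, sum_empty, abs_zero]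
      exact hB0
  have e5 : ∑ k ∈ (Icc 1 N).filter (fun k => k ≡ r [MOD m]), a k * sa (k * t - β) =
      ∑ c ∈ range (q * m), ∑ k ∈ ((Icc 1 N).filter (fun k => k ≡ r [MOD m])).filter
      (fun k => k % (q * m) = c), a k * sa (k * t - β) := by
    rw [sum_fiberwise_of_maps_to]
    intro k _
    exact mem_range.2 (Nat.mod_lt _ (by positivity))
  rw [e5]
  refine (abs_sum_le_sum_abs _ _).trans ((sum_le_sum hcls).trans ?_)
  rw [sum_const, card_range, nsmul_eq_mul]
  push_cast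
  exact le_rfl


lemma ev_log_pow (B : ℕ) : ∀ᶠ N : ℕ in atTop, Real.log N ^ B ≤ N := by
  have h := (Real.isLittleO_pow_log_id_atTop (n := B)).bound (c := 1) one_pos
  have h2 := tendsto_natCast_atTop_atTop (R := ℝ) |>.eventually h
  filter_upwards [h2, eventually_ge_atTop 1] with N hN h1
  rw [Real.norm_eq_abs, Real.norm_eq_abs, id, one_mul, Nat.abs_cast] at hN
  exact (le_abs_self _).trans hN

lemma ev_log_ge (c : ℝ) : ∀ᶠ N : ℕ in atTop, c ≤ Real.log N :=
  (Real.tendsto_log_atTop.comp tendsto_natCast_atTop_atTop).eventually_ge_atTop c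

/-- The Moebius function is orthogonal to the sawtooth function of `k t - β`, `k ≡ r (mod m)`,
uniformly in `t` and `β`, with arbitrary logarithmic savings. -/
theorem sa_class (U m : ℕ) (hm : 0 < m) : ∃ N0 : ℕ, ∀ N : ℕ, N0 ≤ N → ∀ (t β : ℝ) (r : ℕ),
    |∑ k ∈ (Icc 1 N).filter (fun k => k ≡ r [MOD m]), muR k * sa (k * t - β)| ≤
      N / Real.log N ^ U := by
  obtain ⟨B, hB⟩ : ∃ B : ℕ, B = U + 1 := ⟨_, rfl⟩
  obtain ⟨n1, hn1⟩ := Pool.Agent.H373R2.T7.sup_mu (2 * B)
  obtain ⟨n2, hn2⟩ := Pool.Agent.H373R2.T7.mu_ap (B + 1) (U + 2 * B + 2)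
  obtain ⟨n3, hn3⟩ := eventually_atTop.1 ((ev_log_pow B).and ((ev_log_ge 17).and (ev_log_ge m)))
  refine ⟨max (max n1 n2) (max n3 1), fun N hN t β r => ?_⟩
  have k1 := hn1 N (le_trans (le_trans (le_max_left _ _) (le_max_left _ _)) hN)
  have k2 := hn2 N (le_trans (le_trans (le_max_right _ _) (le_max_left _ _)) hN)
  obtain ⟨k3, k4, k5⟩ := hn3 N (le_trans (le_trans (le_max_left _ _) (le_max_right _ _)) hN)
  have hN1 : 1 ≤ N := le_trans (le_trans (le_max_right _ _) (le_max_right _ _)) hN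
  set L := Real.log N with hL
  have hL0 : 0 < L := by linarith
  have hL1 : 1 ≤ L := by linarith
  have hNr : (1 : ℝ) ≤ N := by exact_mod_cast hN1
  have hLB : 0 < L ^ B := by positivity
  have hLU : 0 < L ^ U := by positivity
  have hLB1 : 1 ≤ L ^ B := one_le_pow₀ hL1
  set Q : ℕ := ⌊(N : ℝ) / L ^ B⌋₊ with hQ
  have hQ1 : 0 < Q := Nat.floor_pos.2 (by rw [le_div_iff₀ hLB]; linarith)
  have hQle : (Q : ℝ) ≤ N / L ^ B := Nat.floor_le (by positivity)
  have hQlt : (N : ℝ) / L ^ B < Q + 1 := Nat.lt_floor_add_one _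
  obtain ⟨x, hx1, hx2⟩ := Real.exists_rat_abs_sub_le_and_den_le t hQ1
  set q : ℕ := x.den with hq
  have hq0 : 0 < q := x.den_pos
  have hqr : (1 : ℝ) ≤ q := by exact_mod_cast hq0
  have hxe : (x : ℝ) = (x.num : ℝ) / (q : ℝ) := Rat.cast_def x
  rw [hxe] at hx1
  have hqQ : (q : ℝ) ≤ Q := by exact_mod_cast hx2
  have hθ1 : |t - (x.num : ℝ) / q| ≤ 1 / (Q + 1) := by
    refine hx1.trans ?_
    apply one_div_le_one_div_of_le (by positivity)
    nlinarith
  have hE : ∀ α : ℝ, ‖∑ k ∈ Icc 1 N, ((muR k : ℝ) : ℂ) * ee ((k : ℝ) * α)‖ ≤ N / L ^ (2 * B) := k1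
  rcases le_or_gt (q : ℝ) (L ^ B) with hc | hc
  · -- major arcs
    have hm1 : (1 : ℝ) ≤ m := by exact_mod_cast hm
    have hqm : ((q * m : ℕ) : ℝ) ≤ L ^ (B + 1) := by
      push_cast
      rw [pow_succ]
      exact mul_le_mul hc k5 (by positivity) (by positivity)
    have h1 := major_bound (a := muR) (N := N) (M := N / L ^ (U + 2 * B + 2)) hm hq0
      (fun c y hy => k2 (q * m) (Nat.mul_pos hq0 hm) hqm c y hy) t x.num β r
    refine h1.trans ?_
    have h2 : N * |t - (x.num : ℝ) / q| ≤ L ^ B := by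
      calc N * |t - (x.num : ℝ) / q| ≤ N * (1 / (Q + 1)) := mul_le_mul_of_nonneg_left hθ1 (by positivity)
        _ ≤ L ^ B := by
            rw [mul_one_div, div_le_iff₀ (by positivity)]
            rw [div_lt_iff₀ hLB] at hQlt
            linarith
    have h3 : (3 / 2 + 2 * (N * |t - (x.num : ℝ) / q|)) ≤ 4 * L ^ B := by linarith
    have h4 : (0 : ℝ) ≤ N / L ^ (U + 2 * B + 2) := by positivity
    push_cast at hqm
    calc ((q : ℝ) * m) * (N / L ^ (U + 2 * B + 2) * (3 / 2 + 2 * (N * |t - (x.num : ℝ) / q|)))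
        ≤ L ^ (B + 1) * (N / L ^ (U + 2 * B + 2) * (4 * L ^ B)) := by
          apply mul_le_mul hqm (mul_le_mul_of_nonneg_left h3 h4) (by positivity) (by positivity)
      _ = N / L ^ U * (4 / L) := by
          have e0 : L ^ (U + 2 * B + 2) = L ^ U * L ^ B * L ^ B * L * L := by
            rw [show U + 2 * B + 2 = U + B + B + 1 + 1 by omega, pow_succ, pow_succ, pow_add, pow_add]
          rw [e0, pow_succ]
          generalize L ^ U = X at hLU ⊢
          generalize L ^ B = Y at hLB ⊢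
          field_simp
      _ ≤ N / L ^ U * 1 := by
          apply mul_le_mul_of_nonneg_left _ (by positivity)
          rw [div_le_one hL0]; linarith
      _ = N / L ^ U := mul_one _
  · -- minor arcs
    have hδ0 : (0 : ℝ) < 1 / L ^ B := by positivity
    have hδ1 : 1 / L ^ B < 1 := by
      rw [div_lt_one hLB]
      calc (1 : ℝ) < L := by linarith
        _ = L ^ 1 := (pow_one _).symm
        _ ≤ L ^ B := pow_le_pow_right₀ hL1 (by omega)
    have hcop : IsCoprime x.num (q : ℤ) := by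
      rw [Int.isCoprime_iff_gcd_eq_one]
      exact x.reduced
    have hθ2 : |t - (x.num : ℝ) / q| ≤ 1 / (q : ℝ) ^ 2 := by
      refine hx1.trans ?_
      apply one_div_le_one_div_of_le (by positivity)
      nlinarith
    have h1 := minor_bound (N := N) muR muR_abs ((Icc 1 N).filter (fun k => k ≡ r [MOD m]))
      (by
        intro k hk
        have := (mem_Icc.1 (mem_filter.1 hk).1).2
        exact mem_range.2 (by omega)) hδ0 hδ1 (class_expo hE hm r) hq0 hcop hθ2 β
    refine h1.trans ?_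
    have e1 : (N : ℝ) / L ^ (2 * B) / (6 * (1 / L ^ B)) = N / L ^ B * (1 / 6) := by
      rw [two_mul, pow_add]
      field_simp
    have e2 : 3 * (1 / L ^ B) / 2 * ((N : ℝ) + 1) ≤ N / L ^ B * 3 := by
      rw [show 3 * (1 / L ^ B) / 2 * ((N : ℝ) + 1) = (3 / 2 * (N + 1)) / L ^ B by ring,
        show (N : ℝ) / L ^ B * 3 = (N * 3) / L ^ B by ring]
      apply div_le_div_of_nonneg_right _ hLB.le
      linarith
    have e3 : ((N : ℝ) + 1) / q ≤ N / L ^ B * 2 := by
      rw [show (N : ℝ) / L ^ B * 2 = (N * 2) / L ^ B by ring]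
      apply div_le_div₀ (by positivity) (by linarith) hLB hc.le
    have e4 : (q : ℝ) ≤ N / L ^ B := hqQ.trans hQle
    have e5 : (0 : ℝ) ≤ N / L ^ B := by positivity
    have e6 : (N : ℝ) / L ^ B * 17 ≤ N / L ^ U := by
      rw [hB, pow_succ, ← div_div]
      rw [div_mul_eq_mul_div, div_le_iff₀ hL0]
      apply mul_le_mul_of_nonneg_left k4 (by positivity)
    rw [e1]
    linarith

end Pool.Agent.Helper61A.DS
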