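import Mathlib
import Pool.Agent.Helper61A.DS.Main

/-! Partial summation and the Moebius inversion of a rapidly decreasing sequence. -/

set_option autoImplicit false

namespace Pool.Agent.Helper61A.DS

open Finset Filter Topology
open scoped Real
open Pool.Agent.H807R2.Dav (ee norm_ee ee_add ee_zero ee_int ee_add_int ee_pow)
open Pool.Agent.H373R2.T7 (muR muR_abs)

lemma log_step {x : ℝ} (hx : 2 ≤ x) :
    1 / ((x + 1) * Real.log x ^ 2) ≤ 2 * (1 / Real.log x - 1 / Real.log (x + 1)) := by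
  have h1 : 0 < Real.log x := Real.log_pos (by linarith)
  have h2 : 0 < Real.log (x + 1) := Real.log_pos (by linarith)
  have h3 : Real.log (x + 1) ≤ 2 * Real.log x := by
    rw [← Real.log_rpow (by linarith)]
    apply Real.log_le_log (by linarith)
    norm_num
    nlinarith
  have h4 : 1 / (x + 1) ≤ Real.log (x + 1) - Real.log x := by
    rw [← Real.log_div (by linarith) (by linarith)]
    have := Real.one_sub_inv_le_log_of_pos (x := (x + 1) / x) (by positivity)
    refine le_trans (le_of_eq ?_) this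
    rw [inv_div, eq_sub_iff_add_eq, ← add_div, add_comm, div_self (by linarith)]
  have h5 : 2 * (1 / Real.log x - 1 / Real.log (x + 1)) =
      2 * (Real.log (x + 1) - Real.log x) / (Real.log x * Real.log (x + 1)) := by
    field_simp
  rw [h5]
  calc 1 / ((x + 1) * Real.log x ^ 2) = 2 * (1 / (x + 1)) / (Real.log x * (2 * Real.log x)) := by
        field_simp
    _ ≤ 2 * (Real.log (x + 1) - Real.log x) / (Real.log x * Real.log (x + 1)) := by
        apply div_le_div₀ _ _ (by positivity) _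
        · have : 0 ≤ 1 / (x + 1) := by positivity
          linarith
        · linarith
        · exact mul_le_mul_of_nonneg_left h3 h1.le

/-- partial summation -/
lemma part_sum (a : ℕ → ℂ) (N0 : ℕ) (hN0 : 3 ≤ N0)
    (h : ∀ n, N0 ≤ n → ‖∑ k ∈ Icc 1 n, a k‖ ≤ n / Real.log n ^ 2) {K L : ℕ} (hK : N0 ≤ K) (hL : K ≤ L) :
    ‖∑ k ∈ Ioc K L, a k / k‖ ≤ 4 / Real.log K := by
  set A : ℕ → ℂ := fun n => ∑ k ∈ Icc 1 n, a k with hA
  set f : ℕ → ℂ := fun n => ∑ k ∈ Ioc K n, a k / k - A n / ((n : ℂ) + 1) with hf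
  have hstep : ∀ n, K ≤ n → ‖f (n + 1) - f n‖ ≤
      2 * (1 / Real.log ((n + 1 : ℕ) : ℝ) - 1 / Real.log ((n + 2 : ℕ) : ℝ)) := by
    intro n hn
    have hn1 : ((n : ℂ) + 1) ≠ 0 := by exact_mod_cast Nat.succ_ne_zero n
    have hn2 : ((n : ℂ) + 1 + 1) ≠ 0 := by exact_mod_cast Nat.succ_ne_zero (n + 1)
    have e1 : f (n + 1) - f n = A (n + 1) / (((n : ℂ) + 1) * ((n : ℂ) + 1 + 1)) := by
      have e2 : A (n + 1) = A n + a (n + 1) := by
        simp only [hA]
        rw [sum_Icc_succ_top (by omega)]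
      have e3 : ∑ k ∈ Ioc K (n + 1), a k / (k : ℂ) = ∑ k ∈ Ioc K n, a k / (k : ℂ) + a (n + 1) / ((n : ℂ) + 1) := by
        rw [Finset.sum_Ioc_succ_top (by omega)]
        push_cast; rfl
      simp only [hf]
      rw [e3, e2]
      push_cast
      field_simp
      ring
    rw [e1, norm_div, norm_mul]
    have e4 : ‖(n : ℂ) + 1‖ = (n : ℝ) + 1 := by
      have : ((n : ℂ) + 1) = ((n + 1 : ℕ) : ℂ) := by push_cast; rfl
      rw [this, Complex.norm_natCast]; push_cast; rfl
    have e5 : ‖(n : ℂ) + 1 + 1‖ = (n : ℝ) + 1 + 1 := by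
      have : ((n : ℂ) + 1 + 1) = ((n + 1 + 1 : ℕ) : ℂ) := by push_cast; rfl
      rw [this, Complex.norm_natCast]; push_cast; rfl
    rw [e4, e5]
    have h1 := h (n + 1) (by omega)
    have h2 := log_step (x := ((n + 1 : ℕ) : ℝ)) (by
      have : (3 : ℝ) ≤ n := by exact_mod_cast (hN0.trans (hK.trans hn))
      push_cast; linarith)
    have e6 : ((n + 1 : ℕ) : ℝ) + 1 = ((n + 2 : ℕ) : ℝ) := by push_cast; ring
    rw [e6] at h2
    refine le_trans ?_ h2
    have hn3 : (3 : ℝ) ≤ n := by exact_mod_cast (hN0.trans (hK.trans hn))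
    have hlog : 0 < Real.log ((n + 1 : ℕ) : ℝ) := Real.log_pos (by push_cast; linarith)
    have hlog2 : 0 < Real.log ((n + 1 : ℕ) : ℝ) ^ 2 := pow_pos hlog 2
    have hn4 : (0 : ℝ) < ((n + 2 : ℕ) : ℝ) := by positivity
    rw [div_le_div_iff₀ (by positivity) (mul_pos hn4 hlog2)]
    rw [le_div_iff₀ hlog2] at h1
    generalize Real.log ((n + 1 : ℕ) : ℝ) ^ 2 = Y at h1 hlog2 ⊢
    push_cast at h1 ⊢
    have h7 := mul_le_mul_of_nonneg_left h1 (show (0 : ℝ) ≤ n + 2 by linarith)
    linarith
  have hsum : ∀ n, K ≤ n → ‖f n - f K‖ ≤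
      2 * (1 / Real.log ((K + 1 : ℕ) : ℝ) - 1 / Real.log ((n + 1 : ℕ) : ℝ)) := by
    intro n hn
    induction n, hn using Nat.le_induction with
    | base => simp
    | succ n hn ih =>
      have h1 := hstep n hn
      calc ‖f (n + 1) - f K‖ = ‖(f n - f K) + (f (n + 1) - f n)‖ := by congr 1; ring
        _ ≤ ‖f n - f K‖ + ‖f (n + 1) - f n‖ := norm_add_le _ _
        _ ≤ _ := by
          rw [show n + 1 + 1 = n + 2 by omega]
          linarith
  have hK3 : (3 : ℝ) ≤ K := by exact_mod_cast (hN0.trans hK)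
  have hL3 : (3 : ℝ) ≤ L := by exact_mod_cast (hN0.trans (hK.trans hL))
  have hlogK : 1 ≤ Real.log K := by
    rw [Real.le_log_iff_exp_le (by linarith)]
    have := Real.exp_one_lt_d9
    linarith
  have hlogKL : Real.log K ≤ Real.log L := Real.log_le_log (by linarith) (by exact_mod_cast hL)
  have hlogL : 1 ≤ Real.log L := hlogK.trans hlogKL
  have hb : ∀ n, N0 ≤ n → Real.log K ≤ Real.log n → ‖A n / ((n : ℂ) + 1)‖ ≤ 1 / Real.log K := by
    intro n hn hlog
    have e4 : ‖(n : ℂ) + 1‖ = (n : ℝ) + 1 := by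
      have : ((n : ℂ) + 1) = ((n + 1 : ℕ) : ℂ) := by push_cast; rfl
      rw [this, Complex.norm_natCast]; push_cast; rfl
    rw [norm_div, e4]
    have h1 := h n hn
    have h0 : (0 : ℝ) < n := by exact_mod_cast (by omega : 0 < n)
    have hl : 0 < Real.log n := by linarith
    rw [div_le_div_iff₀ (by positivity) (by linarith)]
    rw [le_div_iff₀ (by positivity)] at h1
    have h2 : ‖A n‖ * Real.log K ≤ ‖A n‖ * Real.log n ^ 2 := by
      apply mul_le_mul_of_nonneg_left _ (norm_nonneg _)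
      nlinarith
    linarith
  have h1 := hsum L hL
  have h2 := hb K hK le_rfl
  have h3 := hb L (hK.trans hL) hlogKL
  have h4 : f K = - (A K / ((K : ℂ) + 1)) := by simp [hf]
  have h5 : ∑ k ∈ Ioc K L, a k / (k : ℂ) = (f L - f K) + A L / ((L : ℂ) + 1) + (- (A K / ((K : ℂ) + 1))) := by
    rw [h4]; simp only [hf]; ring
  rw [h5]
  refine (norm_add_le _ _).trans ?_
  have h6 := norm_add_le (f L - f K) (A L / ((L : ℂ) + 1))
  rw [norm_neg]
  have h7 : 1 / Real.log ((K + 1 : ℕ) : ℝ) ≤ 1 / Real.log K :=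
    one_div_le_one_div_of_le (by linarith) (Real.log_le_log (by linarith) (by push_cast; linarith))
  have h8 : 0 ≤ 1 / Real.log ((L + 1 : ℕ) : ℝ) := by
    have : 0 ≤ Real.log ((L + 1 : ℕ) : ℝ) := Real.log_nonneg (by push_cast; linarith)
    positivity
  have h9 : 4 / Real.log K = 4 * (1 / Real.log K) := by ring
  rw [h9]
  linarith

/-- Moebius inversion for rapidly decreasing sequences -/
lemma moebius_hasSum (F : ℕ → ℂ) (h0 : F 0 = 0) {C : ℝ} (hF : ∀ m, ‖F m‖ ≤ C * (1 / (m : ℝ) ^ 2)) :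
    HasSum (fun k : ℕ => ((muR k : ℝ) : ℂ) * ∑' n, F (k * n)) (F 1) := by
  set f : ℕ × ℕ → ℂ := fun p => ((muR p.1 : ℝ) : ℂ) * F (p.1 * p.2) with hf
  have hC : 0 ≤ C := by
    have := (norm_nonneg _).trans (hF 1)
    simpa using this
  have hs2 : Summable (fun n : ℕ => 1 / (n : ℝ) ^ 2) := Real.summable_one_div_nat_pow.2 one_lt_two
  have hsf : Summable f := by
    have h1 : Summable (fun p : ℕ × ℕ => C * ((1 / (p.1 : ℝ) ^ 2) * (1 / (p.2 : ℝ) ^ 2))) :=
      (hs2.mul_of_nonneg hs2 (fun n => by positivity) (fun n => by positivity)).mul_left C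
    refine Summable.of_norm_bounded h1 fun p => ?_
    simp only [hf]
    rw [norm_mul, Complex.norm_real, Real.norm_eq_abs]
    calc |muR p.1| * ‖F (p.1 * p.2)‖ ≤ 1 * (C * (1 / ((p.1 * p.2 : ℕ) : ℝ) ^ 2)) :=
          mul_le_mul (muR_abs _) (hF _) (norm_nonneg _) zero_le_one
      _ = C * ((1 / (p.1 : ℝ) ^ 2) * (1 / (p.2 : ℝ) ^ 2)) := by
          push_cast
          rw [one_mul, mul_pow, one_div_mul_one_div]
  have hS := hsf.hasSum
  have h1 : HasSum (fun k : ℕ => ((muR k : ℝ) : ℂ) * ∑' n, F (k * n)) (∑' p, f p) := by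
    have h2 := hS.prod_fiberwise (fun k => (hsf.prod_factor k).hasSum)
    refine h2.congr_fun fun k => ?_
    simp only [hf]
    rw [tsum_mul_left]
  have h3 : HasSum (fun b : ℕ => if b = 1 then F 1 else 0) (∑' p, f p) := by
    have h4 := (Equiv.sigmaFiberEquiv (fun p : ℕ × ℕ => p.1 * p.2)).hasSum_iff.2 hS
    refine h4.sigma fun b => ?_
    rcases Nat.eq_zero_or_pos b with rfl | hb
    · rw [if_neg (by omega)]
      refine (hasSum_zero (α := ℂ)).congr_fun fun c => ?_
      have : c.1.1 * c.1.2 = 0 := c.2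
      simp [hf, Equiv.sigmaFiberEquiv, this, h0]
    · have h5 : HasSum (Set.indicator {x : ℕ × ℕ | x.1 * x.2 = b} f) (if b = 1 then F 1 else 0) := by
        have h6 : ∑ x ∈ b.divisorsAntidiagonal, Set.indicator {x : ℕ × ℕ | x.1 * x.2 = b} f x =
            if b = 1 then F 1 else 0 := by
          have h7 : ∀ x ∈ b.divisorsAntidiagonal, Set.indicator {x : ℕ × ℕ | x.1 * x.2 = b} f x =
              ((muR x.1 : ℝ) : ℂ) * F b := by
            intro x hx
            have hx2 := (Nat.mem_divisorsAntidiagonal.1 hx).1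
            rw [Set.indicator_of_mem (show x ∈ {x : ℕ × ℕ | x.1 * x.2 = b} from hx2)]
            simp only [hf]
            rw [hx2]
          rw [sum_congr rfl h7, ← sum_mul]
          have h8 : ∑ x ∈ b.divisorsAntidiagonal, ((muR x.1 : ℝ) : ℂ) = if b = 1 then 1 else 0 := by
            have h9 := congrArg (fun g : ArithmeticFunction ℤ => ((g b : ℤ) : ℂ))
              ArithmeticFunction.moebius_mul_coe_zeta
            simp only [ArithmeticFunction.mul_apply, ArithmeticFunction.one_apply] at h9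
            push_cast at h9
            rw [← h9]
            refine sum_congr rfl fun x hx => ?_
            have hx2 : x.2 ≠ 0 := by
              have := Nat.mem_divisorsAntidiagonal.1 hx
              intro h
              rw [h, mul_zero] at this
              exact this.2 this.1.symm
            simp [Pool.Agent.H373R2.T7.muR, ArithmeticFunction.zeta_apply, hx2]
          rw [h8]
          split_ifs with h
          · rw [h, one_mul]
          · rw [zero_mul]
        rw [← h6]
        refine hasSum_sum_of_ne_finset_zero fun x hx => ?_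
        rw [Set.indicator_of_notMem]
        intro hx2
        apply hx
        rw [Nat.mem_divisorsAntidiagonal]
        exact ⟨hx2, hb.ne'⟩
      have h10 := hasSum_subtype_iff_indicator.2 h5
      exact h10
  have h11 : HasSum (fun b : ℕ => if b = 1 then F 1 else 0) (F 1) := by
    have := hasSum_ite_eq 1 (F 1)
    exact this
  rw [h3.unique h11] at h1
  exact h1

end Pool.Agent.Helper61A.DS
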