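import Mathlib
import Pool.Agent.Helper61A.DS.Part

/-! Davenport's series with characters: uniform convergence and the value. -/

set_option autoImplicit false

namespace Pool.Agent.Helper61A.DS

open Finset Filter Topology
open scoped Real
open Pool.Agent.H807R2.Dav (ee norm_ee ee_add ee_zero ee_int ee_add_int ee_pow)
open Pool.Agent.H373R2.T7 (muR muR_abs)

variable {b : ℕ} [NeZero b]

/-- the coefficients -/
noncomputable def wt (χ : DirichletCharacter ℂ b) : ZMod b → ℂ := ZMod.dft.symm (fun h => χ h)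

lemma wt_sum (χ : DirichletCharacter ℂ b) (k : ZMod b) :
    ∑ j : ZMod b, ZMod.stdAddChar (-(j * k)) * wt χ j = χ k := by
  have h := ZMod.dft_apply (wt χ) k
  have h2 : ZMod.dft (wt χ) = fun h => χ h := by rw [wt, LinearEquiv.apply_symm_apply]
  rw [h2] at h
  simp only [smul_eq_mul] at h
  exact h.symm

lemma wt_ee (χ : DirichletCharacter ℂ b) (n : ℤ) :
    ∑ j : ZMod b, ee (-(n * ((j.val : ℝ) / b))) * wt χ j = χ (n : ZMod b) := by
  rw [← wt_sum χ (n : ZMod b)]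
  refine sum_congr rfl fun j _ => ?_
  congr 1
  have e : (-(j * (n : ZMod b)) : ZMod b) = ((-((j.val : ℤ) * n) : ℤ) : ZMod b) := by
    push_cast
    rw [ZMod.natCast_zmod_val]
  rw [e, ZMod.stdAddChar_coe, ee]
  congr 1
  push_cast
  ring

/-- the sawtooth combination -/
noncomputable def Phi (χ : DirichletCharacter ℂ b) (y : ℝ) : ℂ :=
  ∑ j : ZMod b, wt χ j * ((sa (y - (j.val : ℝ) / b) : ℝ) : ℂ)

/-- the Bernoulli combination -/
noncomputable def Psi (χ : DirichletCharacter ℂ b) (y : ℝ) : ℂ :=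
  ∑ j : ZMod b, wt χ j * ((b2 (y - (j.val : ℝ) / b) : ℝ) : ℂ)

/-- the even part or the odd part of the exponential -/
noncomputable def EE (χ : DirichletCharacter ℂ b) (y : ℝ) : ℂ := ee y + χ (-1) * ee (-y)

omit [NeZero b] in
lemma norm_EE (χ : DirichletCharacter ℂ b) (y : ℝ) : ‖EE χ y‖ ≤ 2 := by
  rw [EE]
  refine (norm_add_le _ _).trans ?_
  rw [norm_mul, norm_ee, norm_ee, mul_one]
  have := χ.norm_le_one (-1)
  linarith

lemma cos_ee (x : ℝ) : ((Real.cos (2 * π * x) : ℝ) : ℂ) = (ee x + ee (-x)) / 2 := by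
  rw [Complex.ofReal_cos, Complex.cos, ee, ee]
  congr 3
  · push_cast; ring
  · push_cast; ring

lemma Psi_hasSum (χ : DirichletCharacter ℂ b) (y : ℝ) :
    HasSum (fun n : ℕ => χ (n : ZMod b) * (1 / (n : ℂ) ^ 2) * EE χ (n * y)) (2 * π ^ 2 * Psi χ y) := by
  have h1 : ∀ j : ZMod b, HasSum (fun n : ℕ => (2 * wt χ j) *
      (((1 / (n : ℝ) ^ 2 * Real.cos (2 * π * n * (y - (j.val : ℝ) / b)) : ℝ)) : ℂ))
      ((2 * wt χ j) * ((π ^ 2 * b2 (y - (j.val : ℝ) / b) : ℝ) : ℂ)) := fun j =>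
    (Complex.hasSum_ofReal.2 (b2_hasSum (y - (j.val : ℝ) / b))).mul_left _
  have h2 := hasSum_sum (s := (Finset.univ : Finset (ZMod b))) fun j _ => h1 j
  have e1 : ∑ j : ZMod b, ((2 * wt χ j) * ((π ^ 2 * b2 (y - (j.val : ℝ) / b) : ℝ) : ℂ)) =
      2 * π ^ 2 * Psi χ y := by
    rw [Psi, mul_sum]
    refine sum_congr rfl fun j _ => ?_
    push_cast
    ring
  rw [e1] at h2
  refine h2.congr_fun fun n => ?_
  have e2 : ∀ j : ZMod b, (2 * wt χ j) *
      (((1 / (n : ℝ) ^ 2 * Real.cos (2 * π * n * (y - (j.val : ℝ) / b)) : ℝ)) : ℂ) =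
      (1 / (n : ℂ) ^ 2) * (ee (n * y) * (ee (-(((n : ℤ) : ℝ) * ((j.val : ℝ) / b))) * wt χ j) +
        ee (-(n * y)) * (ee (-((((-(n : ℤ)) : ℤ) : ℝ) * ((j.val : ℝ) / b))) * wt χ j)) := by
    intro j
    have e3 : 2 * π * n * (y - (j.val : ℝ) / b) = 2 * π * (n * y + -(((n : ℤ) : ℝ) * ((j.val : ℝ) / b))) := by
      push_cast; ring
    have e4 : -(n * y + -(((n : ℤ) : ℝ) * ((j.val : ℝ) / b))) =
        -(n * y) + -((((-(n : ℤ)) : ℤ) : ℝ) * ((j.val : ℝ) / b)) := by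
      push_cast; ring
    rw [e3, Complex.ofReal_mul, cos_ee, e4, ee_add, ee_add]
    push_cast
    ring
  rw [sum_congr rfl fun j _ => e2 j, ← mul_sum, sum_add_distrib, ← mul_sum, ← mul_sum, wt_ee, wt_ee]
  have e5 : χ (((-(n : ℤ) : ℤ)) : ZMod b) = χ (-1) * χ ((n : ℤ) : ZMod b) := by
    rw [← map_mul]; congr 1; push_cast; ring
  rw [e5, EE]
  push_cast
  ring

/-- the partial sums of Davenport's series -/
noncomputable def PK (χ : DirichletCharacter ℂ b) (K : ℕ) (t : ℝ) : ℂ :=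
  ∑ k ∈ Icc 1 K, (((muR k : ℝ) : ℂ) * χ (k : ZMod b) / k) * Phi χ (k * t)

/-- the partial sums of the integrated series -/
noncomputable def GK (χ : DirichletCharacter ℂ b) (K : ℕ) (t : ℝ) : ℂ :=
  ∑ k ∈ Icc 1 K, (((muR k : ℝ) : ℂ) * χ (k : ZMod b) / k ^ 2) * Psi χ (k * t)

lemma muR_zero : muR 0 = 0 := by simp [Pool.Agent.H373R2.T7.muR]

lemma GK_tendsto (χ : DirichletCharacter ℂ b) (t : ℝ) :
    Tendsto (fun K : ℕ => GK χ K t) atTop (𝓝 (1 / (2 * π ^ 2) * EE χ t)) := by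
  have hpi0 : (π : ℂ) ≠ 0 := by exact_mod_cast Real.pi_ne_zero
  have hpi : (2 * (π : ℂ) ^ 2) ≠ 0 := mul_ne_zero two_ne_zero (pow_ne_zero 2 hpi0)
  have h := moebius_hasSum (fun m : ℕ => χ (m : ZMod b) * (1 / (m : ℂ) ^ 2) * EE χ (m * t))
    (by simp) (C := 2) (by
      intro m
      rw [norm_mul, norm_mul, norm_div, norm_one, norm_pow, Complex.norm_natCast]
      have h1 := χ.norm_le_one (m : ZMod b)
      have h2 := norm_EE χ (m * t)
      have h3 : (0 : ℝ) ≤ 1 / (m : ℝ) ^ 2 := by positivity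
      calc ‖χ (m : ZMod b)‖ * (1 / (m : ℝ) ^ 2) * ‖EE χ (m * t)‖ ≤ 1 * (1 / (m : ℝ) ^ 2) * 2 :=
            mul_le_mul (mul_le_mul_of_nonneg_right h1 h3) h2 (norm_nonneg _) (by positivity)
        _ = _ := by ring)
  have e1 : ∀ k : ℕ, ∑' n : ℕ, (χ ((k * n : ℕ) : ZMod b) * (1 / ((k * n : ℕ) : ℂ) ^ 2) *
      EE χ (((k * n : ℕ) : ℝ) * t)) = χ (k : ZMod b) / (k : ℂ) ^ 2 * (2 * π ^ 2 * Psi χ (k * t)) := by
    intro k
    rw [← (Psi_hasSum χ (k * t)).tsum_eq, ← tsum_mul_left]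
    refine tsum_congr fun n => ?_
    have e2 : ((k * n : ℕ) : ℝ) * t = n * (k * t) := by push_cast; ring
    rw [e2]
    push_cast
    rw [map_mul]
    simp only [one_div, mul_pow, mul_inv]
    ring
  simp only [e1] at h
  have e3 : χ ((1 : ℕ) : ZMod b) * (1 / ((1 : ℕ) : ℂ) ^ 2) * EE χ (((1 : ℕ) : ℝ) * t) = EE χ t := by
    simp
  rw [e3] at h
  have h2 := (h.mul_left (1 / (2 * (π : ℂ) ^ 2))).tendsto_sum_nat.comp (tendsto_add_atTop_nat 1)
  refine h2.congr fun K => ?_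
  simp only [Function.comp]
  rw [GK, Finset.range_eq_Ico, Finset.sum_eq_sum_Ico_succ_bot (by omega)]
  rw [muR_zero]
  simp only [Complex.ofReal_zero, zero_mul, mul_zero, zero_add]
  have e4 : Ico 1 (K + 1) = Icc 1 K := by ext x; simp only [mem_Ico, mem_Icc]; omega
  rw [e4]
  refine sum_congr rfl fun k _ => ?_
  field_simp

lemma Psi_cont (χ : DirichletCharacter ℂ b) : Continuous (Psi χ) := by
  unfold Psi
  refine continuous_finsetSum _ fun j _ => ?_
  exact continuous_const.mul (Complex.continuous_ofReal.comp (b2_continuous.comp (by fun_prop)))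

lemma GK_cont (χ : DirichletCharacter ℂ b) (K : ℕ) : Continuous (GK χ K) := by
  unfold GK
  refine continuous_finsetSum _ fun j _ => ?_
  exact continuous_const.mul ((Psi_cont χ).comp (by fun_prop))

lemma Psi_deriv (χ : DirichletCharacter ℂ b) (k : ℕ) (t : ℝ) :
    HasDerivWithinAt (fun s : ℝ => Psi χ (k * s)) (-2 * k * Phi χ (k * t)) (Set.Ici t) t := by
  have h1 : ∀ j : ZMod b, HasDerivWithinAt (fun s : ℝ => wt χ j * ((b2 (k * s - (j.val : ℝ) / b) : ℝ) : ℂ))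
      (wt χ j * (((-2 * sa (k * t - (j.val : ℝ) / b)) * k : ℝ) : ℂ)) (Set.Ici t) t := by
    intro j
    have h2 : HasDerivWithinAt (fun s : ℝ => (k : ℝ) * s - (j.val : ℝ) / b) k (Set.Ici t) t := by
      have := ((hasDerivAt_id t).const_mul (k : ℝ)).sub_const ((j.val : ℝ) / b)
      simpa using this.hasDerivWithinAt
    have h3 := (b2_deriv (k * t - (j.val : ℝ) / b)).comp t h2 (by
      intro s hs
      have hs : t ≤ s := hs
      have : (k : ℝ) * t ≤ k * s := mul_le_mul_of_nonneg_left hs (Nat.cast_nonneg k)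
      show (k : ℝ) * t - (j.val : ℝ) / b ≤ (k : ℝ) * s - (j.val : ℝ) / b
      linarith)
    exact (h3.ofReal_comp).const_mul _
  have h4 := HasDerivWithinAt.fun_sum (u := (Finset.univ : Finset (ZMod b))) fun j _ => h1 j
  refine h4.congr_deriv ?_
  rw [Phi, mul_sum]
  refine sum_congr rfl fun j _ => ?_
  push_cast
  ring

lemma GK_deriv (χ : DirichletCharacter ℂ b) (K : ℕ) (t : ℝ) :
    HasDerivWithinAt (GK χ K) (-2 * PK χ K t) (Set.Ici t) t := by
  have h1 := HasDerivWithinAt.fun_sum (u := Icc 1 K) (x := t) (s := Set.Ici t)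
    (A := fun k s => (((muR k : ℝ) : ℂ) * χ (k : ZMod b) / (k : ℂ) ^ 2) * Psi χ (k * s))
    (A' := fun k => (((muR k : ℝ) : ℂ) * χ (k : ZMod b) / (k : ℂ) ^ 2) * (-2 * k * Phi χ (k * t)))
    (fun k _ => (Psi_deriv χ k t).const_mul _)
  refine h1.congr_deriv ?_
  rw [PK, mul_sum]
  refine sum_congr rfl fun k hk => ?_
  have hk0 : (k : ℂ) ≠ 0 := by
    have := (mem_Icc.1 hk).1
    exact_mod_cast (by omega : k ≠ 0)
  field_simp


lemma char_sum (χ : DirichletCharacter ℂ b) : ∃ N0 : ℕ, 3 ≤ N0 ∧ ∀ n : ℕ, N0 ≤ n → ∀ t β : ℝ,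
    ‖∑ k ∈ Icc 1 n, ((muR k : ℝ) : ℂ) * χ (k : ZMod b) * ((sa (k * t - β) : ℝ) : ℂ)‖ ≤
      n / Real.log n ^ 2 := by
  have hb : 0 < b := Nat.pos_of_ne_zero (NeZero.ne b)
  obtain ⟨n1, hn1⟩ := sa_class 3 b hb
  obtain ⟨n2, hn2⟩ := eventually_atTop.1 ((ev_log_ge b).and (ev_log_ge 1))
  refine ⟨max (max n1 n2) 3, le_max_right _ _, fun n hn t β => ?_⟩
  have h1 := hn1 n (le_trans (le_trans (le_max_left _ _) (le_max_left _ _)) hn) t β
  obtain ⟨h2, h3⟩ := hn2 n (le_trans (le_trans (le_max_right _ _) (le_max_left _ _)) hn)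
  have e1 : ∑ k ∈ Icc 1 n, ((muR k : ℝ) : ℂ) * χ (k : ZMod b) * ((sa (k * t - β) : ℝ) : ℂ) =
      ∑ r ∈ range b, χ (r : ZMod b) *
        ((∑ k ∈ (Icc 1 n).filter (fun k => k ≡ r [MOD b]), muR k * sa (k * t - β) : ℝ) : ℂ) := by
    rw [← sum_fiberwise_of_maps_to (s := Icc 1 n) (t := range b) (g := fun k => k % b)
      (fun k _ => mem_range.2 (Nat.mod_lt _ hb))]
    refine sum_congr rfl fun r hr => ?_
    rw [Complex.ofReal_sum, mul_sum]
    have hr' := mem_range.1 hr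
    have e2 : (Icc 1 n).filter (fun k => k % b = r) = (Icc 1 n).filter (fun k => k ≡ r [MOD b]) := by
      refine filter_congr fun k _ => ?_
      rw [Nat.ModEq, Nat.mod_eq_of_lt hr']
    rw [e2]
    refine sum_congr rfl fun k hk => ?_
    have e3 : (k : ZMod b) = (r : ZMod b) := (ZMod.natCast_eq_natCast_iff _ _ _).2 (mem_filter.1 hk).2
    rw [e3]
    push_cast
    ring
  rw [e1]
  have h4 : ∀ r ∈ range b, ‖χ (r : ZMod b) *
        ((∑ k ∈ (Icc 1 n).filter (fun k => k ≡ r [MOD b]), muR k * sa (k * t - β) : ℝ) : ℂ)‖ ≤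
      n / Real.log n ^ 3 := by
    intro r _
    rw [norm_mul, Complex.norm_real, Real.norm_eq_abs]
    have := χ.norm_le_one (r : ZMod b)
    calc _ ≤ 1 * ((n : ℝ) / Real.log n ^ 3) := mul_le_mul this (h1 r) (abs_nonneg _) zero_le_one
      _ = _ := one_mul _
  refine (norm_sum_le _ _).trans ((sum_le_sum h4).trans ?_)
  rw [sum_const, card_range, nsmul_eq_mul]
  have h5 : 0 < Real.log n := by linarith
  rw [mul_div_assoc', div_le_div_iff₀ (by positivity) (by positivity)]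
  have h6 : Real.log n ^ 3 = Real.log n * Real.log n ^ 2 := by ring
  rw [h6]
  have h7 : (b : ℝ) * (n * Real.log n ^ 2) ≤ Real.log n * (n * Real.log n ^ 2) :=
    mul_le_mul_of_nonneg_right h2 (by positivity)
  linarith

lemma cauchy (χ : DirichletCharacter ℂ b) {ε : ℝ} (hε : 0 < ε) : ∃ K0 : ℕ, ∀ K : ℕ, K0 ≤ K →
    ∀ L : ℕ, K ≤ L → ∀ t : ℝ, ‖PK χ L t - PK χ K t‖ ≤ ε := by
  obtain ⟨N0, hN3, hN0⟩ := char_sum χ
  set W : ℝ := ∑ j : ZMod b, ‖wt χ j‖ with hW
  have hW0 : 0 ≤ W := sum_nonneg fun j _ => norm_nonneg _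
  obtain ⟨n1, hn1⟩ := eventually_atTop.1 ((ev_log_ge (4 * W / ε)).and (ev_log_ge 1))
  refine ⟨max N0 n1, fun K hK L hL t => ?_⟩
  have hKN := le_trans (le_max_left _ _) hK
  obtain ⟨h1, h1'⟩ := hn1 K (le_trans (le_max_right _ _) hK)
  have h2 : ∀ j : ZMod b, ‖∑ k ∈ Ioc K L, ((muR k : ℝ) : ℂ) * χ (k : ZMod b) *
      ((sa (k * t - (j.val : ℝ) / b) : ℝ) : ℂ) / k‖ ≤ 4 / Real.log K := fun j =>
    part_sum _ N0 hN3 (fun n hn => hN0 n hn t ((j.val : ℝ) / b)) hKN hL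
  have e1 : PK χ L t - PK χ K t = ∑ j : ZMod b, wt χ j * ∑ k ∈ Ioc K L, ((muR k : ℝ) : ℂ) * χ (k : ZMod b) *
      ((sa (k * t - (j.val : ℝ) / b) : ℝ) : ℂ) / k := by
    have e2 : PK χ L t - PK χ K t = ∑ k ∈ Ioc K L, (((muR k : ℝ) : ℂ) * χ (k : ZMod b) / k) * Phi χ (k * t) := by
      rw [PK, PK, sub_eq_iff_eq_add', ← sum_union]
      · refine sum_congr ?_ fun _ _ => rfl
        ext x
        simp only [mem_union, mem_Icc, mem_Ioc]
        omega
      · rw [disjoint_left]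
        intro x hx hx2
        rw [mem_Icc] at hx
        rw [mem_Ioc] at hx2
        omega
    rw [e2]
    simp only [Phi, mul_sum]
    rw [sum_comm]
    refine sum_congr rfl fun j _ => sum_congr rfl fun k _ => ?_
    ring
  rw [e1]
  refine (norm_sum_le _ _).trans ?_
  have h3 : ∑ j : ZMod b, ‖wt χ j * ∑ k ∈ Ioc K L, ((muR k : ℝ) : ℂ) * χ (k : ZMod b) *
      ((sa (k * t - (j.val : ℝ) / b) : ℝ) : ℂ) / k‖ ≤ ∑ j : ZMod b, ‖wt χ j‖ * (4 / Real.log K) := by
    refine sum_le_sum fun j _ => ?_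
    rw [norm_mul]
    exact mul_le_mul_of_nonneg_left (h2 j) (norm_nonneg _)
  refine h3.trans ?_
  rw [← sum_mul, ← hW]
  have hl : 0 < Real.log K := by linarith
  rw [div_le_iff₀ hε] at h1
  rw [mul_div_assoc', div_le_iff₀ hl]
  linarith

lemma ee_deriv (t : ℝ) : HasDerivAt ee (2 * π * Complex.I * ee t) t := by
  have h1 : HasDerivAt (fun s : ℝ => (2 * π * Complex.I * s : ℂ)) (2 * π * Complex.I) t := by
    simpa using (Complex.ofRealCLM.hasDerivAt (x := t)).const_mul (2 * π * Complex.I : ℂ)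
  have h2 := h1.cexp
  refine h2.congr_deriv ?_
  rw [ee]; ring

lemma EE_deriv (χ : DirichletCharacter ℂ b) (t : ℝ) :
    HasDerivAt (EE χ) (2 * π * Complex.I * (ee t - χ (-1) * ee (-t))) t := by
  have h1 := ee_deriv t
  have h2 : HasDerivAt (fun s : ℝ => ee (-s)) (-(2 * π * Complex.I * ee (-t))) t := by
    have h5 : HasDerivAt (fun s : ℝ => ee (-s)) ((-1 : ℝ) • (2 * π * Complex.I * ee (-t))) t :=
      (ee_deriv (-t)).scomp t (hasDerivAt_neg t)
    refine h5.congr_deriv ?_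
    simp
  have h3 := h1.add (h2.const_mul (χ (-1)))
  refine h3.congr_deriv ?_
  ring

/-- the uniform convergence of Davenport's series with a character -/
theorem unif (χ : DirichletCharacter ℂ b) {ε : ℝ} (hε : 0 < ε) : ∃ K0 : ℕ, ∀ K : ℕ, K0 ≤ K →
    ∀ t : ℝ, ‖2 * π * Complex.I * PK χ K t - (ee t - χ (-1) * ee (-t))‖ ≤ ε := by
  obtain ⟨K0, hK0⟩ := cauchy χ (ε := ε / (2 * π)) (by positivity)
  refine ⟨K0, fun K hK t => ?_⟩
  set δ : ℝ := ε / (2 * π) with hδ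
  set Ginf : ℝ → ℂ := fun s => 1 / (2 * π ^ 2) * EE χ s with hGinf
  -- Lipschitz bounds for the differences
  have h1 : ∀ L, K ≤ L → ∀ s, t ≤ s → ‖(GK χ L s - GK χ K s) - (GK χ L t - GK χ K t)‖ ≤ 2 * δ * (s - t) := by
    intro L hL s hs
    have := norm_image_sub_le_of_norm_deriv_right_le_segment (f := fun s => GK χ L s - GK χ K s)
      (f' := fun s => -2 * PK χ L s - -2 * PK χ K s) (C := 2 * δ) (a := t) (b := s)
      (((GK_cont χ L).sub (GK_cont χ K)).continuousOn)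
      (fun x _ => (GK_deriv χ L x).sub (GK_deriv χ K x)) (by
        intro x _
        have e : -2 * PK χ L x - -2 * PK χ K x = -2 * (PK χ L x - PK χ K x) := by ring
        rw [e, norm_mul]
        have h2 : ‖(-2 : ℂ)‖ = 2 := by simp
        rw [h2]
        exact mul_le_mul_of_nonneg_left (hK0 K hK L hL x) (by norm_num)) s ⟨hs, le_rfl⟩
    exact this
  have h2 : ∀ s, t ≤ s → ‖(Ginf s - GK χ K s) - (Ginf t - GK χ K t)‖ ≤ 2 * δ * (s - t) := by
    intro s hs
    have h3 : Tendsto (fun L => ‖(GK χ L s - GK χ K s) - (GK χ L t - GK χ K t)‖) atTop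
        (𝓝 ‖(Ginf s - GK χ K s) - (Ginf t - GK χ K t)‖) :=
      (((GK_tendsto χ s).sub_const _).sub ((GK_tendsto χ t).sub_const _)).norm
    refine le_of_tendsto h3 ?_
    filter_upwards [eventually_ge_atTop K] with L hL
    exact h1 L hL s hs
  -- the right derivative
  have h4 : HasDerivWithinAt (fun s => Ginf s - GK χ K s)
      (1 / (2 * π ^ 2) * (2 * π * Complex.I * (ee t - χ (-1) * ee (-t))) - -2 * PK χ K t) (Set.Ici t) t :=
    (((EE_deriv χ t).const_mul _).hasDerivWithinAt).sub (GK_deriv χ K t)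
  have h5 := hasDerivWithinAt_iff_tendsto_slope.1 h4
  have e6 : Set.Ici t \ {t} = Set.Ioi t := by
    ext x
    simp only [Set.mem_sdiff, Set.mem_Ici, Set.mem_singleton_iff, Set.mem_Ioi]
    constructor
    · rintro ⟨h, h'⟩; exact lt_of_le_of_ne h (Ne.symm h')
    · intro h; exact ⟨h.le, h.ne'⟩
  rw [e6] at h5
  have h7 : ‖(1 / (2 * π ^ 2) * (2 * π * Complex.I * (ee t - χ (-1) * ee (-t))) - -2 * PK χ K t : ℂ)‖ ≤ 2 * δ := by
    refine le_of_tendsto h5.norm ?_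
    filter_upwards [self_mem_nhdsWithin] with s hs
    have hs : t < s := hs
    rw [slope_def_module, norm_smul, norm_inv, Real.norm_eq_abs, abs_of_pos (sub_pos.2 hs)]
    rw [inv_mul_le_iff₀ (sub_pos.2 hs)]
    have := h2 s hs.le
    linarith
  have hpi0 : (π : ℂ) ≠ 0 := by exact_mod_cast Real.pi_ne_zero
  have e8 : 2 * π * Complex.I * PK χ K t - (ee t - χ (-1) * ee (-t)) =
      (π * Complex.I) * (1 / (2 * π ^ 2) * (2 * π * Complex.I * (ee t - χ (-1) * ee (-t))) - -2 * PK χ K t) := by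
    have hI : Complex.I * Complex.I = -1 := Complex.I_mul_I
    field_simp
    linear_combination (- (ee t - χ (-1) * ee (-t))) * hI
  rw [e8, norm_mul, norm_mul, Complex.norm_I, mul_one, Complex.norm_real, Real.norm_eq_abs, abs_of_pos Real.pi_pos]
  calc π * _ ≤ π * (2 * δ) := mul_le_mul_of_nonneg_left h7 Real.pi_pos.le
    _ = ε := by
      have := Real.pi_ne_zero
      rw [hδ]; field_simp

end Pool.Agent.Helper61A.DS
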