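import Mathlib
import Pool.Agent.Helper61A.DS.Ident
import Pool.Agent.R485.Trans.Saw

/-! Exponential sums are controlled by the frequencies of the first digits of the multiples. -/

set_option autoImplicit false

namespace Pool.Agent.Helper61A.DS

open Finset Filter Topology
open scoped Real
open Pool.Agent.H807R2.Dav (ee norm_ee ee_add ee_zero ee_int ee_add_int ee_pow)
open Pool.Agent.H373R2.T7 (muR muR_abs)

/-- the first digit after the point -/
noncomputable def dig (b : ℕ) (y : ℝ) : ℤ := ⌊y * (b : ℝ)⌋ % (b : ℤ)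

lemma dig_iff {b : ℕ} (hb : 0 < b) (y : ℝ) (d : ℕ) (hd : d < b) :
    dig b y = (d : ℤ) ↔ (d : ℝ) / b ≤ Int.fract y ∧ Int.fract y < ((d : ℝ) + 1) / b := by
  have hb' : (0 : ℝ) < b := by exact_mod_cast hb
  have e1 : ⌊y * (b : ℝ)⌋ = ⌊y⌋ * b + ⌊Int.fract y * b⌋ := by
    have : y * (b : ℝ) = ((⌊y⌋ * (b : ℤ) : ℤ) : ℝ) + Int.fract y * b := by
      conv_lhs => rw [← Int.floor_add_fract y]
      push_cast; ring
    rw [this, Int.floor_intCast_add]
  have h0 : 0 ≤ ⌊Int.fract y * b⌋ := Int.floor_nonneg.2 (mul_nonneg (Int.fract_nonneg y) hb'.le)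
  have h1 : ⌊Int.fract y * b⌋ < (b : ℤ) := by
    rw [Int.floor_lt]
    have := Int.fract_lt_one y
    push_cast
    nlinarith
  have e2 : dig b y = ⌊Int.fract y * b⌋ := by
    rw [dig, e1, add_comm, Int.add_mul_emod_self_right, Int.emod_eq_of_lt h0 h1]
  rw [e2, Int.floor_eq_iff, div_le_iff₀ hb', lt_div_iff₀ hb']
  push_cast
  exact Iff.rfl

lemma dig_ind {b : ℕ} (hb : 0 < b) (y : ℝ) (d : ℕ) (hd : d < b) :
    (if dig b y = (d : ℤ) then (1 : ℝ) else 0) - 1 / b = sa (y - (d : ℝ) / b) - sa (y - ((d + 1 : ℕ) : ℝ) / b) := by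
  have hb' : (0 : ℝ) < b := by exact_mod_cast hb
  have h1 := fract_indicator y (α := (d : ℝ) / b) (β := ((d : ℝ) + 1) / b) (by positivity)
    (by apply div_le_div_of_nonneg_right _ hb'.le; linarith)
    (by
      rw [div_le_one hb']
      exact_mod_cast hd)
  have e : ((d : ℝ) + 1) / b - (d : ℝ) / b = 1 / b := by ring
  rw [e] at h1
  push_cast
  rw [← h1]
  congr 1
  simp only [dig_iff hb y d hd]

variable {b : ℕ} [NeZero b]

lemma wt_total (hb : 2 ≤ b) (χ : DirichletCharacter ℂ b) : ∑ j : ZMod b, wt χ j = 0 := by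
  have h := wt_sum χ 0
  have : Fact (1 < b) := ⟨hb⟩
  have h0 : χ (0 : ZMod b) = 0 := χ.map_nonunit (by simp)
  rw [h0] at h
  simpa using h

lemma Phi_digits (hb : 2 ≤ b) (χ : DirichletCharacter ℂ b) (y : ℝ) :
    Phi χ y = - ∑ j : ZMod b, wt χ j * ∑ i ∈ range j.val,
      (((if dig b y = (i : ℤ) then (1 : ℝ) else 0) - 1 / b : ℝ) : ℂ) := by
  have hb0 : 0 < b := by omega
  have h1 : ∀ j : ZMod b, ((sa (y - (j.val : ℝ) / b) : ℝ) : ℂ) = (sa y : ℂ) - ∑ i ∈ range j.val,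
      (((if dig b y = (i : ℤ) then (1 : ℝ) else 0) - 1 / b : ℝ) : ℂ) := by
    intro j
    rw [← Complex.ofReal_sum, ← Complex.ofReal_sub]
    congr 1
    have h2 : ∑ i ∈ range j.val, ((if dig b y = (i : ℤ) then (1 : ℝ) else 0) - 1 / b) =
        ∑ i ∈ range j.val, (sa (y - (i : ℝ) / b) - sa (y - ((i + 1 : ℕ) : ℝ) / b)) := by
      refine sum_congr rfl fun i hi => ?_
      exact dig_ind hb0 y i ((mem_range.1 hi).trans (ZMod.val_lt j))
    rw [h2, Finset.sum_range_sub' (fun i : ℕ => sa (y - (i : ℝ) / b))]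
    simp
  rw [Phi]
  rw [sum_congr rfl fun j _ => by rw [h1 j, mul_sub]]
  rw [sum_sub_distrib, ← sum_mul, wt_total hb χ, zero_mul, zero_sub]

/-- total weight -/
noncomputable def W (χ : DirichletCharacter ℂ b) : ℝ := ∑ j : ZMod b, ‖wt χ j‖

lemma W_nonneg (χ : DirichletCharacter ℂ b) : 0 ≤ W χ := sum_nonneg fun _ _ => norm_nonneg _

lemma Phi_sum_bound (hb : 2 ≤ b) (χ : DirichletCharacter ℂ b) {ι : Type} (S : Finset ι) (z : ι → ℝ)
    {Δ : ℝ} (h : ∀ d : ℕ, d < b → |((S.filter (fun n => dig b (z n) = (d : ℤ))).card : ℝ) - S.card / b| ≤ Δ) :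
    ‖∑ n ∈ S, Phi χ (z n)‖ ≤ W χ * (b * Δ) := by
  have hb0 : 0 < b := by omega
  have hΔ : 0 ≤ Δ := (abs_nonneg _).trans (h 0 hb0)
  have e1 : ∑ n ∈ S, Phi χ (z n) = - ∑ j : ZMod b, wt χ j * ∑ i ∈ range j.val,
      ((((S.filter (fun n => dig b (z n) = (i : ℤ))).card : ℝ) - S.card / b : ℝ) : ℂ) := by
    simp only [Phi_digits hb χ]
    rw [sum_neg_distrib, sum_comm]
    congr 1
    refine sum_congr rfl fun j _ => ?_
    rw [← mul_sum, sum_comm]
    congr 1
    refine sum_congr rfl fun i _ => ?_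
    rw [← Complex.ofReal_sum, sum_sub_distrib, sum_const, nsmul_eq_mul, ← sum_filter, sum_const,
      nsmul_eq_mul, mul_one, mul_one_div]
  rw [e1, norm_neg]
  refine (norm_sum_le _ _).trans ?_
  have h2 : ∀ j ∈ (Finset.univ : Finset (ZMod b)), ‖wt χ j * ∑ i ∈ range j.val,
      ((((S.filter (fun n => dig b (z n) = (i : ℤ))).card : ℝ) - S.card / b : ℝ) : ℂ)‖ ≤ ‖wt χ j‖ * (b * Δ) := by
    intro j _
    rw [norm_mul]
    apply mul_le_mul_of_nonneg_left _ (norm_nonneg _)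
    refine (norm_sum_le _ _).trans ?_
    have h3 : ∀ i ∈ range j.val, ‖((((S.filter (fun n => dig b (z n) = (i : ℤ))).card : ℝ) - S.card / b : ℝ) : ℂ)‖ ≤ Δ := by
      intro i hi
      rw [Complex.norm_real, Real.norm_eq_abs]
      exact h i ((mem_range.1 hi).trans (ZMod.val_lt j))
    refine (sum_le_sum h3).trans ?_
    rw [sum_const, card_range, nsmul_eq_mul]
    apply mul_le_mul_of_nonneg_right _ hΔ
    exact_mod_cast (ZMod.val_lt j).le
  refine (sum_le_sum h2).trans ?_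
  rw [← sum_mul, W]

lemma PK_sum_bound (hb : 2 ≤ b) (χ : DirichletCharacter ℂ b) {ι : Type} (S : Finset ι) (y : ι → ℝ) (K : ℕ)
    {Δ : ℝ} (hΔ : 0 ≤ Δ) (h : ∀ k ∈ Icc 1 K, Nat.Coprime k b → ∀ d : ℕ, d < b →
      |((S.filter (fun n => dig b (k * y n) = (d : ℤ))).card : ℝ) - S.card / b| ≤ Δ) :
    ‖∑ n ∈ S, PK χ K (y n)‖ ≤ K * (W χ * (b * Δ)) := by
  have hW := W_nonneg χ
  have e1 : ∑ n ∈ S, PK χ K (y n) = ∑ k ∈ Icc 1 K, (((muR k : ℝ) : ℂ) * χ (k : ZMod b) / k) *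
      ∑ n ∈ S, Phi χ (k * y n) := by
    simp only [PK]
    rw [sum_comm]
    exact sum_congr rfl fun k _ => by rw [mul_sum]
  rw [e1]
  refine (norm_sum_le _ _).trans ?_
  have h2 : ∀ k ∈ Icc 1 K, ‖(((muR k : ℝ) : ℂ) * χ (k : ZMod b) / k) * ∑ n ∈ S, Phi χ (k * y n)‖ ≤
      W χ * (b * Δ) := by
    intro k hk
    by_cases hc : Nat.Coprime k b
    · have h3 := Phi_sum_bound hb χ S (fun n => k * y n) (h k hk hc)
      rw [norm_mul]
      have h4 : ‖((muR k : ℝ) : ℂ) * χ (k : ZMod b) / k‖ ≤ 1 := by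
        rw [norm_div, norm_mul, Complex.norm_real, Real.norm_eq_abs, Complex.norm_natCast]
        have h5 := muR_abs k
        have h6 := χ.norm_le_one (k : ZMod b)
        have h7 : (1 : ℝ) ≤ k := by exact_mod_cast (mem_Icc.1 hk).1
        rw [div_le_one (by linarith)]
        calc |muR k| * ‖χ (k : ZMod b)‖ ≤ 1 * 1 := mul_le_mul h5 h6 (norm_nonneg _) zero_le_one
          _ ≤ k := by linarith
      calc _ ≤ 1 * (W χ * (b * Δ)) := mul_le_mul h4 h3 (norm_nonneg _) zero_le_one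
        _ = _ := one_mul _
    · have h3 : χ (k : ZMod b) = 0 := by
        apply χ.map_nonunit
        rw [ZMod.isUnit_iff_coprime]
        exact hc
      rw [h3]
      simp only [mul_zero, zero_div, zero_mul, norm_zero]
      positivity
  refine (sum_le_sum h2).trans ?_
  rw [sum_const, Nat.card_Icc, nsmul_eq_mul]
  simp

lemma exists_odd (hb : 3 ≤ b) : ∃ χ : DirichletCharacter ℂ b, χ (-1) = -1 := by
  have hne : (-1 : ZMod b) ≠ 1 := by
    intro h
    have h2 : ((2 : ℕ) : ZMod b) = 0 := by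
      have : (1 : ZMod b) + 1 = 0 := by
        nth_rewrite 1 [← h]; ring
      rw [← this]; push_cast; norm_num
    rw [ZMod.natCast_eq_zero_iff] at h2
    have := Nat.le_of_dvd (by norm_num) h2
    omega
  obtain ⟨χ, hχ⟩ := DirichletCharacter.exists_apply_ne_one_of_hasEnoughRootsOfUnity ℂ hne
  rcases χ.even_or_odd with h | h
  · exact absurd h hχ
  · exact ⟨χ, h⟩

/-- Exponential sums are controlled by the frequencies of the first digits of the multiples. -/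
theorem expo_bound (hb : 3 ≤ b) {ε : ℝ} (hε : 0 < ε) : ∃ K : ℕ, 1 ≤ K ∧ ∃ C : ℝ, 0 < C ∧
    ∀ {ι : Type} (S : Finset ι) (y : ι → ℝ) (Δ : ℝ), (∀ k ∈ Icc 1 K, Nat.Coprime k b → ∀ d : ℕ, d < b →
      |((S.filter (fun n => dig b (k * y n) = (d : ℤ))).card : ℝ) - S.card / b| ≤ Δ) →
    ‖∑ n ∈ S, ee (y n)‖ ≤ ε * S.card + C * Δ := by
  obtain ⟨χ, hχ⟩ := exists_odd hb
  obtain ⟨K1, hK1⟩ := unif χ hε
  obtain ⟨K2, hK2⟩ := unif (1 : DirichletCharacter ℂ b) hε
  set K : ℕ := max (max K1 K2) 1 with hK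
  have hK1' : K1 ≤ K := le_trans (le_max_left _ _) (le_max_left _ _)
  have hK2' : K2 ≤ K := le_trans (le_max_right _ _) (le_max_left _ _)
  have hK3 : 1 ≤ K := le_max_right _ _
  set C : ℝ := π * (K * (W χ * b)) + π * (K * (W (1 : DirichletCharacter ℂ b) * b)) + 1 with hC
  have hW1 := W_nonneg χ
  have hW2 := W_nonneg (1 : DirichletCharacter ℂ b)
  refine ⟨K, hK3, C, by positivity, ?_⟩
  intro ι S y Δ h
  have hΔ : 0 ≤ Δ := (abs_nonneg _).trans (h 1 (mem_Icc.2 ⟨le_rfl, hK3⟩) (Nat.coprime_one_left b) 0 (by omega))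
  have h1 := PK_sum_bound (by omega) χ S y K hΔ h
  have h2 := PK_sum_bound (by omega) (1 : DirichletCharacter ℂ b) S y K hΔ h
  have hone : (1 : DirichletCharacter ℂ b) (-1) = 1 := MulChar.one_apply (isUnit_one.neg)
  have e1 : ∀ t : ℝ, ee t = π * Complex.I * PK χ K t + π * Complex.I * PK (1 : DirichletCharacter ℂ b) K t -
      (1 / 2) * ((2 * π * Complex.I * PK χ K t - (ee t - χ (-1) * ee (-t))) +
      (2 * π * Complex.I * PK (1 : DirichletCharacter ℂ b) K t - (ee t - (1 : DirichletCharacter ℂ b) (-1) * ee (-t)))) := by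
    intro t
    rw [hχ, hone]
    ring
  have e2 : ∑ n ∈ S, ee (y n) = π * Complex.I * ∑ n ∈ S, PK χ K (y n) +
      π * Complex.I * ∑ n ∈ S, PK (1 : DirichletCharacter ℂ b) K (y n) -
      ∑ n ∈ S, (1 / 2) * ((2 * π * Complex.I * PK χ K (y n) - (ee (y n) - χ (-1) * ee (-(y n)))) +
      (2 * π * Complex.I * PK (1 : DirichletCharacter ℂ b) K (y n) -
        (ee (y n) - (1 : DirichletCharacter ℂ b) (-1) * ee (-(y n))))) := by
    rw [mul_sum, mul_sum, ← sum_add_distrib, ← sum_sub_distrib]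
    exact sum_congr rfl fun n _ => e1 (y n)
  have h3 : ‖∑ n ∈ S, (1 / 2 : ℂ) * ((2 * π * Complex.I * PK χ K (y n) - (ee (y n) - χ (-1) * ee (-(y n)))) +
      (2 * π * Complex.I * PK (1 : DirichletCharacter ℂ b) K (y n) -
        (ee (y n) - (1 : DirichletCharacter ℂ b) (-1) * ee (-(y n)))))‖ ≤ ε * S.card := by
    have h4 : ∀ n ∈ S, ‖(1 / 2 : ℂ) * ((2 * π * Complex.I * PK χ K (y n) - (ee (y n) - χ (-1) * ee (-(y n)))) +
      (2 * π * Complex.I * PK (1 : DirichletCharacter ℂ b) K (y n) -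
        (ee (y n) - (1 : DirichletCharacter ℂ b) (-1) * ee (-(y n)))))‖ ≤ ε := by
      intro n _
      rw [norm_mul]
      have h5 : ‖(1 / 2 : ℂ)‖ = 1 / 2 := by norm_num
      rw [h5]
      have h6 := norm_add_le (2 * π * Complex.I * PK χ K (y n) - (ee (y n) - χ (-1) * ee (-(y n))))
        (2 * π * Complex.I * PK (1 : DirichletCharacter ℂ b) K (y n) -
        (ee (y n) - (1 : DirichletCharacter ℂ b) (-1) * ee (-(y n))))
      have h7 := hK1 K hK1' (y n)
      have h8 := hK2 K hK2' (y n)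
      linarith
    refine (norm_sum_le _ _).trans ((sum_le_sum h4).trans ?_)
    rw [sum_const, nsmul_eq_mul, mul_comm]
  have hn : ∀ z : ℂ, ‖π * Complex.I * z‖ = π * ‖z‖ := by
    intro z
    rw [norm_mul, norm_mul, Complex.norm_I, mul_one, Complex.norm_real, Real.norm_eq_abs,
      abs_of_pos Real.pi_pos]
  rw [e2]
  refine (norm_sub_le _ _).trans ?_
  have h9 := norm_add_le (π * Complex.I * ∑ n ∈ S, PK χ K (y n))
    (π * Complex.I * ∑ n ∈ S, PK (1 : DirichletCharacter ℂ b) K (y n))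
  rw [hn, hn] at h9
  have h10 := mul_le_mul_of_nonneg_left h1 Real.pi_pos.le
  have h11 := mul_le_mul_of_nonneg_left h2 Real.pi_pos.le
  have e3 : C * Δ = π * (K * (W χ * (b * Δ))) + π * (K * (W (1 : DirichletCharacter ℂ b) * (b * Δ))) + Δ := by
    rw [hC]; ring
  rw [e3]
  linarith

lemma ee_eq_e (x : ℝ) : Pool.Agent.H469R2.NK.e x = ee x := by
  rw [Pool.Agent.H469R2.NK.e, ee]
  congr 1; push_cast; ring

omit [NeZero b] in
/-- the number of points in an interval -/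
theorem interval_bound {ι : Type} (S : Finset ι) (y : ι → ℝ) {α β : ℝ} (h0 : 0 ≤ α) (h1 : α ≤ β) (h2 : β ≤ 1)
    (K : ℕ) (hK : 1 ≤ K) {δ : ℝ} (hδ0 : 0 < δ) (hδ1 : δ ≤ 1) :
    |((S.filter (fun n => α ≤ Int.fract (y n) ∧ Int.fract (y n) < β)).card : ℝ) - (β - α) * S.card| ≤
      2 * (∑ h ∈ Icc 1 K, ‖∑ n ∈ S, ee (h * y n)‖ / h + S.card / (K * δ) + S.card * δ) := by
  have key : ∀ γ : ℝ, |∑ n ∈ S, sa (y n - γ)| ≤
      ∑ h ∈ Icc 1 K, ‖∑ n ∈ S, ee (h * y n)‖ / h + S.card / (K * δ) + S.card * δ := by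
    intro γ
    have h3 := Pool.Agent.R485.Trans.saw_bound S (fun n => y n - γ) K hK δ hδ0 hδ1
    have e1 : ∑ n ∈ S, sa (y n - γ) = -∑ n ∈ S, (Int.fract (y n - γ) - 1 / 2) := by
      rw [← sum_neg_distrib]
      exact sum_congr rfl fun n _ => by rw [sa]; ring
    have e2 : ∀ h : ℕ, ‖∑ n ∈ S, Pool.Agent.H469R2.NK.e (h * (y n - γ))‖ = ‖∑ n ∈ S, ee (h * y n)‖ := by
      intro h
      have : ∑ n ∈ S, Pool.Agent.H469R2.NK.e (h * (y n - γ)) = ee (-(h * γ)) * ∑ n ∈ S, ee (h * y n) := by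
        rw [mul_sum]
        refine sum_congr rfl fun n _ => ?_
        rw [ee_eq_e, ← ee_add]
        congr 1; ring
      rw [this, norm_mul, norm_ee, one_mul]
    simp only [e2] at h3
    rw [e1, abs_neg]
    exact h3
  have e3 : ((S.filter (fun n => α ≤ Int.fract (y n) ∧ Int.fract (y n) < β)).card : ℝ) - (β - α) * S.card =
      ∑ n ∈ S, sa (y n - α) - ∑ n ∈ S, sa (y n - β) := by
    rw [← sum_sub_distrib]
    rw [sum_congr rfl fun n _ => (fract_indicator (y n) h0 h1 h2).symm]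
    rw [sum_sub_distrib, sum_const, nsmul_eq_mul, ← sum_filter, sum_const, nsmul_eq_mul, mul_one]
    ring
  rw [e3]
  refine (abs_sub _ _).trans ?_
  have := key α
  have := key β
  linarith

end Pool.Agent.Helper61A.DS
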