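import Mathlib
import Pool.Agent.Helper61A.DS.Digits

/-! Words and intervals; normality and simple normality of the multiples. -/

set_option autoImplicit false

namespace Pool.Agent.Helper61A.DS

open Finset Filter Topology
open scoped Real
open Pool.Agent.H807R2.Dav (ee norm_ee ee_add ee_zero ee_int ee_add_int ee_pow)
open Pool.Agent.H373R2.T7 (muR muR_abs)

/-- simple normality -/
def SimplyNormal (b : ℕ) (x : ℝ) : Prop :=
  ∀ d : ℕ, d < b → Tendsto (fun N : ℕ => (((Finset.range N).filter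
    (fun i : ℕ => ⌊x * (b : ℝ) ^ (i + 1)⌋ % (b : ℤ) = (d : ℤ))).card : ℝ) / (N : ℝ))
    atTop (𝓝 (1 / (b : ℝ)))

/-- normality -/
def Normal (b : ℕ) (x : ℝ) : Prop :=
  ∀ k : ℕ, 0 < k → ∀ w : Fin k → Fin b, Tendsto (fun N : ℕ => (((Finset.range N).filter
    (fun i : ℕ => ∀ j : Fin k, ⌊x * (b : ℝ) ^ (i + 1 + (j : ℕ))⌋ % (b : ℤ) = (((w j : ℕ)) : ℤ))).card : ℝ)
      / (N : ℝ)) atTop (𝓝 ((1 : ℝ) / (b : ℝ) ^ k))

/-- The numbers whose expansions begin with a given word form an interval. -/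
lemma word_iff {b : ℕ} (hb : 0 < b) : ∀ (k : ℕ) (w : Fin k → Fin b), ∃ c : ℕ, c < b ^ k ∧ ∀ y : ℝ,
    (∀ j : Fin k, ⌊y * (b : ℝ) ^ ((j : ℕ) + 1)⌋ % (b : ℤ) = ((w j : ℕ) : ℤ)) ↔
      ((c : ℝ) / (b : ℝ) ^ k ≤ Int.fract y ∧ Int.fract y < ((c : ℝ) + 1) / (b : ℝ) ^ k) := by
  have hb' : (0 : ℝ) < b := by exact_mod_cast hb
  intro k
  induction k with
  | zero =>
    intro w
    refine ⟨0, by simp, fun y => ?_⟩
    simp [Int.fract_nonneg, Int.fract_lt_one]
  | succ k ih =>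
    intro w
    obtain ⟨c', hc', hc⟩ := ih (fun j => w j.succ)
    set d : ℕ := (w 0 : ℕ) with hd
    have hdb : d < b := (w 0).isLt
    refine ⟨d * b ^ k + c', ?_, fun y => ?_⟩
    · have : d * b ^ k + b ^ k ≤ b ^ (k + 1) := by
        rw [pow_succ]
        nlinarith [Nat.pos_of_ne_zero (pow_ne_zero k hb.ne')]
      omega
    · rw [Fin.forall_fin_succ]
      have e1 : (⌊y * (b : ℝ) ^ (((0 : Fin (k + 1)) : ℕ) + 1)⌋ % (b : ℤ) = ((w 0 : ℕ) : ℤ)) ↔
          ((d : ℝ) / b ≤ Int.fract y ∧ Int.fract y < ((d : ℝ) + 1) / b) := by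
        rw [← dig_iff hb y d hdb, dig]
        simp [hd]
      have e2 : (∀ j : Fin k, ⌊y * (b : ℝ) ^ ((j.succ : ℕ) + 1)⌋ % (b : ℤ) = ((w j.succ : ℕ) : ℤ)) ↔
          ((c' : ℝ) / (b : ℝ) ^ k ≤ Int.fract (y * b) ∧ Int.fract (y * b) < ((c' : ℝ) + 1) / (b : ℝ) ^ k) := by
        rw [← hc (y * b)]
        refine forall_congr' fun j => ?_
        have : y * (b : ℝ) ^ ((j.succ : ℕ) + 1) = y * b * (b : ℝ) ^ ((j : ℕ) + 1) := by
          rw [Fin.val_succ, pow_succ' (b : ℝ) ((j : ℕ) + 1)]; ring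
        rw [this]
      rw [e1, e2]
      have hbk : (0 : ℝ) < (b : ℝ) ^ k := by positivity
      have hfr : ((d : ℝ) / b ≤ Int.fract y ∧ Int.fract y < ((d : ℝ) + 1) / b) →
          Int.fract (y * b) = Int.fract y * b - d := by
        rintro ⟨h1, h2⟩
        rw [div_le_iff₀ hb'] at h1
        rw [lt_div_iff₀ hb'] at h2
        rw [Int.fract_eq_iff]
        refine ⟨by linarith, by linarith, ⟨⌊y⌋ * b + d, ?_⟩⟩
        have := Int.floor_add_fract y
        push_cast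
        nlinarith
      have hcr : ((c' : ℝ) + 1) ≤ (b : ℝ) ^ k := by exact_mod_cast hc'
      constructor
      · rintro ⟨h1, h2, h3⟩
        rw [hfr h1] at h2 h3
        rw [div_le_iff₀ hbk] at h2
        rw [lt_div_iff₀ hbk] at h3
        rw [div_le_iff₀ (by positivity), lt_div_iff₀ (by positivity), pow_succ]
        push_cast
        constructor <;> nlinarith
      · rintro ⟨h1, h2⟩
        rw [div_le_iff₀ (by positivity), pow_succ] at h1
        rw [lt_div_iff₀ (by positivity), pow_succ] at h2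
        push_cast at h1 h2
        have h3 : ((d : ℝ) / b ≤ Int.fract y ∧ Int.fract y < ((d : ℝ) + 1) / b) := by
          rw [div_le_iff₀ hb', lt_div_iff₀ hb']
          have hc0 : (0 : ℝ) ≤ c' := Nat.cast_nonneg _
          constructor
          · by_contra hcon
            push Not at hcon
            nlinarith
          · by_contra hcon
            push Not at hcon
            nlinarith
        refine ⟨h3, ?_⟩
        rw [hfr h3, div_le_iff₀ hbk, lt_div_iff₀ hbk]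
        constructor <;> nlinarith

lemma dig_pow (b : ℕ) (x : ℝ) (i : ℕ) : ⌊x * (b : ℝ) ^ (i + 1)⌋ % (b : ℤ) = dig b (x * (b : ℝ) ^ i) := by
  rw [dig, pow_succ]
  congr 2; ring

/-- the finite version for arbitrary finite families of points -/
theorem finite_version {b : ℕ} (hb : 3 ≤ b) {ε : ℝ} (hε : 0 < ε) : ∃ M : ℕ, 1 ≤ M ∧
    ∀ {ι : Type} (S : Finset ι) (y : ι → ℝ), (∀ m ∈ Icc 1 M, ∀ d : ℕ, d < b →
      |((S.filter (fun n => dig b (m * y n) = (d : ℤ))).card : ℝ) - S.card / b| ≤ S.card / M) →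
    ∀ α β : ℝ, 0 ≤ α → α ≤ β → β ≤ 1 →
      |((S.filter (fun n => α ≤ Int.fract (y n) ∧ Int.fract (y n) < β)).card : ℝ) - (β - α) * S.card| ≤
        ε * S.card := by
  have : NeZero b := ⟨by omega⟩
  set ε' : ℝ := min ε 1 with hε'
  have hε'0 : 0 < ε' := lt_min hε one_pos
  have hε'1 : ε' ≤ 1 := min_le_right _ _
  set δ : ℝ := ε' / 8 with hδ
  have hδ0 : 0 < δ := by positivity
  have hδ1 : δ ≤ 1 := by rw [hδ]; linarith
  set Kh : ℕ := ⌈1 / δ ^ 2⌉₊ with hKh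
  have hKh1 : 1 ≤ Kh := Nat.one_le_ceil_iff.2 (by positivity)
  have hKhr : (0 : ℝ) < Kh := by exact_mod_cast hKh1
  have hKh2 : 1 / δ ^ 2 ≤ Kh := Nat.le_ceil _
  obtain ⟨K, hK1, C, hC, hexp⟩ := expo_bound hb (ε := ε' / (8 * Kh)) (by positivity)
  set M : ℕ := max (K * Kh) ⌈8 * Kh * C / ε'⌉₊ with hM
  have hM1 : K * Kh ≤ M := le_max_left _ _
  have hM2 : 8 * Kh * C / ε' ≤ M := (Nat.le_ceil _).trans (Nat.cast_le.2 (le_max_right _ _))
  have hM3 : 1 ≤ M := le_trans (Nat.mul_pos hK1 hKh1) hM1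
  have hMr : (0 : ℝ) < M := by exact_mod_cast hM3
  refine ⟨M, hM3, ?_⟩
  intro ι S y h α β h0 h1 h2
  have hS : (0 : ℝ) ≤ S.card := Nat.cast_nonneg _
  refine (interval_bound S y h0 h1 h2 Kh hKh1 hδ0 hδ1).trans ?_
  have h3 : ∀ t ∈ Icc 1 Kh, ‖∑ n ∈ S, ee (t * y n)‖ / t ≤ ε' / (4 * Kh) * S.card := by
    intro t ht
    obtain ⟨ht1, ht2⟩ := mem_Icc.1 ht
    have h4 := hexp S (fun n => t * y n) (S.card / M) (by
      intro k hk _ d hd
      obtain ⟨hk1, hk2⟩ := mem_Icc.1 hk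
      have h5 := h (k * t) (mem_Icc.2 ⟨Nat.mul_pos hk1 ht1, (Nat.mul_le_mul hk2 ht2).trans hM1⟩) d hd
      have e : ∀ n, (k : ℝ) * (t * y n) = ((k * t : ℕ) : ℝ) * y n := fun n => by push_cast; ring
      simp only [e]
      exact h5)
    have ht1r : (1 : ℝ) ≤ t := by exact_mod_cast ht1
    calc ‖∑ n ∈ S, ee (t * y n)‖ / t ≤ ‖∑ n ∈ S, ee (t * y n)‖ := div_le_self (norm_nonneg _) ht1r
      _ ≤ ε' / (8 * Kh) * S.card + C * (S.card / M) := h4
      _ ≤ ε' / (8 * Kh) * S.card + ε' / (8 * Kh) * S.card := by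
          have : C / M ≤ ε' / (8 * Kh) := by
            rw [div_le_div_iff₀ hMr (by positivity)]
            rw [div_le_iff₀ hε'0] at hM2
            linarith
          have := mul_le_mul_of_nonneg_right this hS
          have e : C * ((S.card : ℝ) / M) = C / M * S.card := by ring
          rw [e]
          linarith
      _ = ε' / (4 * Kh) * S.card := by ring
  have h4 := sum_le_sum h3
  rw [sum_const, Nat.card_Icc, nsmul_eq_mul] at h4
  have e1 : ((Kh + 1 - 1 : ℕ) : ℝ) * (ε' / (4 * Kh) * S.card) = ε' / 4 * S.card := by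
    rw [Nat.add_sub_cancel]
    field_simp
  rw [e1] at h4
  have h5 : (S.card : ℝ) / (Kh * δ) ≤ S.card * δ := by
    rw [div_le_iff₀ (by positivity)]
    have h6 : 1 ≤ δ * (Kh * δ) := by
      rw [div_le_iff₀ (by positivity)] at hKh2
      nlinarith
    calc (S.card : ℝ) = S.card * 1 := (mul_one _).symm
      _ ≤ S.card * (δ * (Kh * δ)) := mul_le_mul_of_nonneg_left h6 hS
      _ = _ := by ring
  have h6 : ε' * S.card ≤ ε * S.card := mul_le_mul_of_nonneg_right (min_le_left _ _) hS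
  have e2 : (S.card : ℝ) * δ = ε' / 8 * S.card := by rw [hδ]; ring
  rw [e2] at h5 ⊢
  linarith

/-- Weyl's criterion -/
lemma weyl_interval (u : ℕ → ℝ)
    (h : ∀ t : ℕ, 1 ≤ t → ∀ η : ℝ, 0 < η → ∀ᶠ N : ℕ in atTop, ‖∑ n ∈ range N, ee (t * u n)‖ ≤ η * N)
    {α β : ℝ} (h0 : 0 ≤ α) (h1 : α ≤ β) (h2 : β ≤ 1) :
    Tendsto (fun N : ℕ => (((range N).filter
      (fun n => α ≤ Int.fract (u n) ∧ Int.fract (u n) < β)).card : ℝ) / N) atTop (𝓝 (β - α)) := by
  rw [Metric.tendsto_atTop]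
  intro ε hε
  set ε' : ℝ := min ε 1 with hε'
  have hε'0 : 0 < ε' := lt_min hε one_pos
  have hε'1 : ε' ≤ 1 := min_le_right _ _
  set δ : ℝ := ε' / 8 with hδ
  have hδ0 : 0 < δ := by positivity
  have hδ1 : δ ≤ 1 := by rw [hδ]; linarith
  set Kh : ℕ := ⌈1 / δ ^ 2⌉₊ with hKh
  have hKh1 : 1 ≤ Kh := Nat.one_le_ceil_iff.2 (by positivity)
  have hKhr : (0 : ℝ) < Kh := by exact_mod_cast hKh1
  have hKh2 : 1 / δ ^ 2 ≤ Kh := Nat.le_ceil _
  have h3 : ∀ᶠ N : ℕ in atTop, ∀ t ∈ Icc 1 Kh, ‖∑ n ∈ range N, ee (t * u n)‖ ≤ ε' / (8 * Kh) * N := by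
    rw [Filter.eventually_all_finset]
    intro t ht
    exact h t (mem_Icc.1 ht).1 _ (by positivity)
  obtain ⟨N0, hN0⟩ := eventually_atTop.1 (h3.and (eventually_ge_atTop 1))
  refine ⟨N0, fun N hN => ?_⟩
  obtain ⟨h4, h5⟩ := hN0 N hN
  have hNr : (0 : ℝ) < N := by exact_mod_cast h5
  have h6 := interval_bound (range N) u h0 h1 h2 Kh hKh1 hδ0 hδ1
  rw [card_range] at h6
  have h7 : ∀ t ∈ Icc 1 Kh, ‖∑ n ∈ range N, ee (t * u n)‖ / t ≤ ε' / (8 * Kh) * N := by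
    intro t ht
    have ht1r : (1 : ℝ) ≤ t := by exact_mod_cast (mem_Icc.1 ht).1
    exact (div_le_self (norm_nonneg _) ht1r).trans (h4 t ht)
  have h8 := sum_le_sum h7
  rw [sum_const, Nat.card_Icc, nsmul_eq_mul] at h8
  have e1 : ((Kh + 1 - 1 : ℕ) : ℝ) * (ε' / (8 * Kh) * N) = ε' / 8 * N := by
    rw [Nat.add_sub_cancel]
    field_simp
  rw [e1] at h8
  have h9 : (N : ℝ) / (Kh * δ) ≤ N * δ := by
    rw [div_le_iff₀ (by positivity)]
    have h6 : 1 ≤ δ * (Kh * δ) := by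
      rw [div_le_iff₀ (by positivity)] at hKh2
      nlinarith
    calc (N : ℝ) = N * 1 := (mul_one _).symm
      _ ≤ N * (δ * (Kh * δ)) := mul_le_mul_of_nonneg_left h6 hNr.le
      _ = _ := by ring
  have e2 : (N : ℝ) * δ = ε' / 8 * N := by rw [hδ]; ring
  rw [e2] at h9 h6
  rw [Real.dist_eq]
  have e3 : (((range N).filter
      (fun n => α ≤ Int.fract (u n) ∧ Int.fract (u n) < β)).card : ℝ) / N - (β - α) =
      ((((range N).filter
      (fun n => α ≤ Int.fract (u n) ∧ Int.fract (u n) < β)).card : ℝ) - (β - α) * N) / N := by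
    field_simp
  rw [e3, abs_div, abs_of_pos hNr, div_lt_iff₀ hNr]
  have h10 : ε' * N ≤ ε * N := mul_le_mul_of_nonneg_right (min_le_left _ _) hNr.le
  have h11 : 0 < ε' * N := by positivity
  linarith

end Pool.Agent.Helper61A.DS
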