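import Mathlib
import Pool.Agent.Helper61A.DS.Norm
import Pool.Agent.H469R2.NK.Vdc

/-! Normality and the exceptional multiples. -/

set_option autoImplicit false

namespace Pool.Agent.Helper61A.DS

open Finset Filter Topology
open scoped Real
open Pool.Agent.H807R2.Dav (ee norm_ee ee_add ee_zero ee_int ee_add_int ee_pow)
open Pool.Agent.H373R2.T7 (muR muR_abs)

/-- small exponential sums give normality -/
lemma normal_of_weyl {b : ℕ} (hb : 2 ≤ b) {x : ℝ}
    (h : ∀ t : ℕ, 1 ≤ t → ∀ η : ℝ, 0 < η → ∀ᶠ N : ℕ in atTop,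
      ‖∑ n ∈ range N, ee (t * (x * (b : ℝ) ^ n))‖ ≤ η * N) : Normal b x := by
  intro k hk w
  obtain ⟨c, hc1, hc2⟩ := word_iff (by omega : 0 < b) k w
  have hb' : (0 : ℝ) < b := by exact_mod_cast (by omega : 0 < b)
  have hbk : (0 : ℝ) < (b : ℝ) ^ k := by positivity
  have hc3 : ((c : ℝ) + 1) ≤ (b : ℝ) ^ k := by exact_mod_cast hc1
  have h1 := weyl_interval (fun n => x * (b : ℝ) ^ n) h (α := (c : ℝ) / (b : ℝ) ^ k)
    (β := ((c : ℝ) + 1) / (b : ℝ) ^ k) (by positivity)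
    (by apply div_le_div_of_nonneg_right _ hbk.le; linarith) (by rw [div_le_one hbk]; exact hc3)
  have e : ((c : ℝ) + 1) / (b : ℝ) ^ k - (c : ℝ) / (b : ℝ) ^ k = 1 / (b : ℝ) ^ k := by ring
  rw [e] at h1
  refine h1.congr fun N => ?_
  congr 3
  refine filter_congr fun i _ => ?_
  rw [← hc2 (x * (b : ℝ) ^ i)]
  refine forall_congr' fun j => ?_
  have : x * (b : ℝ) ^ i * (b : ℝ) ^ ((j : ℕ) + 1) = x * (b : ℝ) ^ (i + 1 + (j : ℕ)) := by
    rw [mul_assoc, ← pow_add]; congr 2; omega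
  rw [this]

/-- small exponential sums give simple normality -/
lemma simply_of_weyl {b : ℕ} (hb : 2 ≤ b) {x : ℝ}
    (h : ∀ t : ℕ, 1 ≤ t → ∀ η : ℝ, 0 < η → ∀ᶠ N : ℕ in atTop,
      ‖∑ n ∈ range N, ee (t * (x * (b : ℝ) ^ n))‖ ≤ η * N) : SimplyNormal b x := by
  intro d hd
  have hb' : (0 : ℝ) < b := by exact_mod_cast (by omega : 0 < b)
  have h1 := weyl_interval (fun n => x * (b : ℝ) ^ n) h (α := (d : ℝ) / (b : ℝ))
    (β := ((d : ℝ) + 1) / (b : ℝ)) (by positivity)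
    (by apply div_le_div_of_nonneg_right _ hb'.le; linarith) (by rw [div_le_one hb']; exact_mod_cast hd)
  have e : ((d : ℝ) + 1) / (b : ℝ) - (d : ℝ) / (b : ℝ) = 1 / (b : ℝ) := by ring
  rw [e] at h1
  refine h1.congr fun N => ?_
  congr 3
  refine filter_congr fun i _ => ?_
  rw [dig_pow, dig_iff (by omega) _ d hd]

/-- normality gives small exponential sums -/
lemma weyl_of_normal {b : ℕ} (hb : 2 ≤ b) {x : ℝ} (hx : Normal b x) (t : ℕ) (ht : 1 ≤ t) {η : ℝ} (hη : 0 < η) :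
    ∀ᶠ N : ℕ in atTop, ‖∑ n ∈ range N, ee (t * (x * (b : ℝ) ^ n))‖ ≤ η * N := by
  have hb0 : 0 < b := by omega
  have hb' : (1 : ℝ) < b := by exact_mod_cast (by omega : 1 < b)
  -- choose the length of the words
  obtain ⟨L, hL⟩ := pow_unbounded_of_one_lt (max (t : ℝ) (2 * π * t * (2 / η))) hb'
  have hLt : (t : ℝ) < (b : ℝ) ^ L := (le_max_left _ _).trans_lt hL
  have hLη : 2 * π * t * (2 / η) < (b : ℝ) ^ L := (le_max_right _ _).trans_lt hL
  have htL : t < b ^ L := by exact_mod_cast hLt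
  have hL0 : 0 < L := by
    rcases Nat.eq_zero_or_pos L with h | h
    · rw [h] at htL; simp at htL; omega
    · exact h
  have hbL : (0 : ℝ) < (b : ℝ) ^ L := by positivity
  choose c hc1 hc2 using fun w => word_iff hb0 L w
  -- the code is a bijection
  have hinj : Function.Injective c := by
    intro w w' hww
    have h1 : Int.fract ((c w : ℝ) / (b : ℝ) ^ L) = (c w : ℝ) / (b : ℝ) ^ L := by
      rw [Int.fract_eq_self]
      refine ⟨by positivity, ?_⟩
      rw [div_lt_one hbL]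
      exact_mod_cast hc1 w
    have h2 : (c w : ℝ) / (b : ℝ) ^ L < ((c w : ℝ) + 1) / (b : ℝ) ^ L := by
      apply div_lt_div_of_pos_right _ hbL; linarith
    have h3 := (hc2 w ((c w : ℝ) / (b : ℝ) ^ L)).2 (by rw [h1]; exact ⟨le_rfl, h2⟩)
    have h4 := (hc2 w' ((c w : ℝ) / (b : ℝ) ^ L)).2 (by rw [h1, ← hww]; exact ⟨le_rfl, h2⟩)
    funext j
    have := (h3 j).symm.trans (h4 j)
    exact Fin.ext (by exact_mod_cast this)
  have himg : (Finset.univ : Finset (Fin L → Fin b)).image c = range (b ^ L) := by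
    apply Finset.eq_of_subset_of_card_le
    · intro m hm
      obtain ⟨w, _, rfl⟩ := mem_image.1 hm
      exact mem_range.2 (hc1 w)
    · rw [card_image_of_injective _ hinj, card_range]
      simp
  have hzero : ∑ w : Fin L → Fin b, ee (t * ((c w : ℝ) / (b : ℝ) ^ L)) = 0 := by
    have h1 : ∑ w : Fin L → Fin b, ee (t * ((c w : ℝ) / (b : ℝ) ^ L)) =
        ∑ m ∈ range (b ^ L), ee ((m : ℝ) * (((t : ℝ) - (0 : ℕ)) / (b ^ L : ℕ))) := by
      rw [← himg, sum_image (fun a _ b _ h => hinj h)]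
      refine sum_congr rfl fun w _ => ?_
      congr 1; push_cast; ring
    rw [h1, ind_mod (by positivity), if_neg]
    intro h
    rw [Nat.ModEq, Nat.mod_eq_of_lt htL, Nat.zero_mod] at h
    omega
  -- the word at position `n`
  have hword : ∀ y : ℝ, ∃ w : Fin L → Fin b, ∀ j : Fin L, ⌊y * (b : ℝ) ^ ((j : ℕ) + 1)⌋ % (b : ℤ) = ((w j : ℕ) : ℤ) := by
    intro y
    refine ⟨fun j => ⟨(⌊y * (b : ℝ) ^ ((j : ℕ) + 1)⌋ % (b : ℤ)).toNat, ?_⟩, fun j => ?_⟩
    · have h1 := Int.emod_nonneg ⌊y * (b : ℝ) ^ ((j : ℕ) + 1)⌋ (show (b : ℤ) ≠ 0 by exact_mod_cast hb0.ne')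
      have h2 := Int.emod_lt_of_pos ⌊y * (b : ℝ) ^ ((j : ℕ) + 1)⌋ (show (0 : ℤ) < b by exact_mod_cast hb0)
      omega
    · have h1 := Int.emod_nonneg ⌊y * (b : ℝ) ^ ((j : ℕ) + 1)⌋ (show (b : ℤ) ≠ 0 by exact_mod_cast hb0.ne')
      exact (Int.toNat_of_nonneg h1).symm
  choose wd hwd using hword
  set u : ℕ → ℝ := fun n => x * (b : ℝ) ^ n with hu
  have hclose : ∀ y : ℝ, ‖ee (t * y) - ee (t * ((c (wd y) : ℝ) / (b : ℝ) ^ L))‖ ≤ 2 * π * t / (b : ℝ) ^ L := by
    intro y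
    obtain ⟨h1, h2⟩ := (hc2 (wd y) y).1 (hwd y)
    have e1 : ee (t * y) = ee (t * Int.fract y) := by
      have : (t : ℝ) * y = t * Int.fract y + ((t * ⌊y⌋ : ℤ) : ℝ) := by
        conv_lhs => rw [← Int.floor_add_fract y]
        push_cast; ring
      rw [this, ee_add_int]
    rw [e1]
    set z : ℝ := t * Int.fract y - t * ((c (wd y) : ℝ) / (b : ℝ) ^ L) with hz
    have e2 : ee (t * Int.fract y) - ee (t * ((c (wd y) : ℝ) / (b : ℝ) ^ L)) =
        ee (t * ((c (wd y) : ℝ) / (b : ℝ) ^ L)) * (ee z - 1) := by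
      rw [mul_sub, mul_one, ← ee_add]
      congr 2
      rw [hz]; ring
    rw [e2, norm_mul, norm_ee, one_mul]
    have h3 : ‖ee z - 1‖ ≤ 2 * π * |z| := by
      rw [Pool.Agent.H807R2.Dav.ee_eq']
      refine (Real.norm_exp_I_mul_ofReal_sub_one_le).trans ?_
      rw [Real.norm_eq_abs, abs_mul, abs_of_pos (by positivity : 0 < 2 * π)]
    refine h3.trans ?_
    have h4 : |z| ≤ t * (1 / (b : ℝ) ^ L) := by
      have e3 : z = t * (Int.fract y - (c (wd y) : ℝ) / (b : ℝ) ^ L) := by rw [hz]; ring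
      rw [e3, abs_mul, Nat.abs_cast]
      apply mul_le_mul_of_nonneg_left _ (Nat.cast_nonneg t)
      rw [abs_of_nonneg (by linarith)]
      have : ((c (wd y) : ℝ) + 1) / (b : ℝ) ^ L = (c (wd y) : ℝ) / (b : ℝ) ^ L + 1 / (b : ℝ) ^ L := by ring
      linarith
    calc 2 * π * |z| ≤ 2 * π * (t * (1 / (b : ℝ) ^ L)) := mul_le_mul_of_nonneg_left h4 (by positivity)
      _ = _ := by ring
  -- the frequencies of the words
  have hfreq : ∀ w : Fin L → Fin b, Tendsto (fun N : ℕ => (((range N).filter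
      (fun n => wd (u n) = w)).card : ℝ) / N) atTop (𝓝 (1 / (b : ℝ) ^ L)) := by
    intro w
    refine (hx L hL0 w).congr fun N => ?_
    congr 3
    refine filter_congr fun i _ => ?_
    have h1 : (∀ j : Fin L, ⌊x * (b : ℝ) ^ (i + 1 + (j : ℕ))⌋ % (b : ℤ) = (((w j : ℕ)) : ℤ)) ↔
        (∀ j : Fin L, ⌊u i * (b : ℝ) ^ ((j : ℕ) + 1)⌋ % (b : ℤ) = (((w j : ℕ)) : ℤ)) := by
      refine forall_congr' fun j => ?_
      have : u i * (b : ℝ) ^ ((j : ℕ) + 1) = x * (b : ℝ) ^ (i + 1 + (j : ℕ)) := by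
        rw [hu]; simp only
        rw [mul_assoc, ← pow_add]; congr 2; omega
      rw [this]
    rw [h1]
    constructor
    · intro h
      funext j
      have := (h j).symm.trans (hwd (u i) j)
      exact (Fin.ext (by exact_mod_cast this)).symm
    · intro h j
      rw [← h]; exact hwd (u i) j
  have hlim : Tendsto (fun N : ℕ => ∑ w : Fin L → Fin b, (((((range N).filter
      (fun n => wd (u n) = w)).card : ℝ) / N : ℝ) : ℂ) * ee (t * ((c w : ℝ) / (b : ℝ) ^ L))) atTop (𝓝 0) := by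
    have h1 : Tendsto (fun N : ℕ => ∑ w : Fin L → Fin b, (((((range N).filter
      (fun n => wd (u n) = w)).card : ℝ) / N : ℝ) : ℂ) * ee (t * ((c w : ℝ) / (b : ℝ) ^ L))) atTop
      (𝓝 (∑ w : Fin L → Fin b, ((1 / (b : ℝ) ^ L : ℝ) : ℂ) * ee (t * ((c w : ℝ) / (b : ℝ) ^ L)))) := by
      refine tendsto_finsetSum _ fun w _ => ?_
      exact ((Complex.continuous_ofReal.tendsto _).comp (hfreq w)).mul_const _
    rw [← mul_sum, hzero, mul_zero] at h1
    exact h1
  have h5 := (tendsto_zero_iff_norm_tendsto_zero.1 hlim).eventually (gt_mem_nhds (show (0 : ℝ) < η / 2 by positivity))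
  filter_upwards [h5, eventually_ge_atTop 1] with N hN hN1
  have hNr : (0 : ℝ) < N := by exact_mod_cast hN1
  have hNc : (N : ℂ) ≠ 0 := by exact_mod_cast hNr.ne'
  have e1 : ∑ n ∈ range N, ee (t * ((c (wd (u n)) : ℝ) / (b : ℝ) ^ L)) =
      N * ∑ w : Fin L → Fin b, (((((range N).filter
      (fun n => wd (u n) = w)).card : ℝ) / N : ℝ) : ℂ) * ee (t * ((c w : ℝ) / (b : ℝ) ^ L)) := by
    rw [← sum_fiberwise (range N) (fun n => wd (u n)), mul_sum]
    refine sum_congr rfl fun w _ => ?_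
    have : ∑ n ∈ (range N).filter (fun n => wd (u n) = w), ee (t * ((c (wd (u n)) : ℝ) / (b : ℝ) ^ L)) =
        ∑ n ∈ (range N).filter (fun n => wd (u n) = w), ee (t * ((c w : ℝ) / (b : ℝ) ^ L)) :=
      sum_congr rfl fun n hn => by rw [(mem_filter.1 hn).2]
    rw [this, sum_const, nsmul_eq_mul]
    push_cast
    field_simp
  have h6 : ‖∑ n ∈ range N, ee (t * ((c (wd (u n)) : ℝ) / (b : ℝ) ^ L))‖ ≤ η / 2 * N := by
    rw [e1, norm_mul, Complex.norm_natCast, mul_comm]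
    exact mul_le_mul_of_nonneg_right hN.le hNr.le
  have h7 : ‖∑ n ∈ range N, (ee (t * u n) - ee (t * ((c (wd (u n)) : ℝ) / (b : ℝ) ^ L)))‖ ≤ η / 2 * N := by
    refine (norm_sum_le _ _).trans ((sum_le_sum fun n _ => hclose (u n)).trans ?_)
    rw [sum_const, card_range, nsmul_eq_mul, mul_comm]
    apply mul_le_mul_of_nonneg_right _ hNr.le
    rw [div_le_iff₀ hbL]
    have : 2 * π * t = (2 * π * t * (2 / η)) * (η / 2) := by field_simp
    rw [this, mul_comm (η / 2)]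
    exact mul_le_mul_of_nonneg_right hLη.le (by positivity)
  have e2 : ∑ n ∈ range N, ee (t * u n) = ∑ n ∈ range N, (ee (t * u n) - ee (t * ((c (wd (u n)) : ℝ) / (b : ℝ) ^ L)))
      + ∑ n ∈ range N, ee (t * ((c (wd (u n)) : ℝ) / (b : ℝ) ^ L)) := by
    rw [← sum_add_distrib]
    exact sum_congr rfl fun n _ => by ring
  change ‖∑ n ∈ range N, ee (t * u n)‖ ≤ η * N
  rw [e2]
  refine (norm_add_le _ _).trans ?_
  linarith

/-- the multiples of a normal number are simply normal -/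
lemma simply_of_normal {b : ℕ} (hb : 2 ≤ b) {x : ℝ} (hx : Normal b x) (m : ℕ) (hm : 1 ≤ m) :
    SimplyNormal b (m * x) := by
  apply simply_of_weyl hb
  intro t ht η hη
  have h := weyl_of_normal hb hx (t * m) (Nat.mul_pos ht hm) hη
  filter_upwards [h] with N hN
  refine le_trans (le_of_eq ?_) hN
  congr 1
  refine sum_congr rfl fun n _ => ?_
  congr 1; push_cast; ring

/-- simple normality of finitely many multiples gives small exponential sums -/
lemma key_ev {b : ℕ} (hb : 3 ≤ b) {ε : ℝ} (hε : 0 < ε) : ∃ K : ℕ, 1 ≤ K ∧ ∀ (x : ℝ) (h : ℕ),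
    (∀ k ∈ Icc 1 K, Nat.Coprime k b → SimplyNormal b (((k * h : ℕ) : ℝ) * x)) →
    ∀ᶠ N : ℕ in atTop, ‖∑ n ∈ range N, ee (h * (x * (b : ℝ) ^ n))‖ ≤ ε * N := by
  have : NeZero b := ⟨by omega⟩
  obtain ⟨K, hK1, C, hC, hexp⟩ := expo_bound hb (ε := ε / 2) (by positivity)
  refine ⟨K, hK1, fun x h hgood => ?_⟩
  have h1 : ∀ᶠ N : ℕ in atTop, ∀ k ∈ Icc 1 K, ∀ d ∈ range b, Nat.Coprime k b →
      |(((range N).filter (fun n => dig b (k * (h * (x * (b : ℝ) ^ n))) = (d : ℤ))).card : ℝ) -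
        (range N).card / b| ≤ ε / (2 * C) * N := by
    rw [Filter.eventually_all_finset]
    intro k hk
    rw [Filter.eventually_all_finset]
    intro d hd
    by_cases hc : Nat.Coprime k b
    · have h2 := Metric.tendsto_atTop.1 (hgood k hk hc d (mem_range.1 hd)) (ε / (2 * C)) (by positivity)
      obtain ⟨N0, hN0⟩ := h2
      filter_upwards [eventually_ge_atTop N0, eventually_ge_atTop 1] with N hN hN1 _
      have h3 := hN0 N hN
      have hNr : (0 : ℝ) < N := by exact_mod_cast hN1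
      rw [Real.dist_eq] at h3
      have e1 : (range N).filter (fun i : ℕ => ⌊((k * h : ℕ) : ℝ) * x * (b : ℝ) ^ (i + 1)⌋ % (b : ℤ) = (d : ℤ)) =
          (range N).filter (fun n => dig b (k * (h * (x * (b : ℝ) ^ n))) = (d : ℤ)) := by
        refine filter_congr fun i _ => ?_
        rw [dig_pow]
        have : ((k * h : ℕ) : ℝ) * x * (b : ℝ) ^ i = k * (h * (x * (b : ℝ) ^ i)) := by push_cast; ring
        rw [this]
      rw [e1] at h3
      rw [card_range]
      have e2 : (((range N).filter (fun n => dig b (k * (h * (x * (b : ℝ) ^ n))) = (d : ℤ))).card : ℝ) - N / b =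
          ((((range N).filter (fun n => dig b (k * (h * (x * (b : ℝ) ^ n))) = (d : ℤ))).card : ℝ) / N - 1 / b) * N := by
        field_simp
      rw [e2, abs_mul, Nat.abs_cast]
      exact mul_le_mul_of_nonneg_right h3.le hNr.le
    · exact Filter.Eventually.of_forall fun N hc' => absurd hc' hc
  filter_upwards [h1] with N hN
  have h2 := hexp (range N) (fun n => h * (x * (b : ℝ) ^ n)) (ε / (2 * C) * N)
    (fun k hk hc d hd => hN k hk d (mem_range.2 hd) hc)
  rw [card_range] at h2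
  refine h2.trans (le_of_eq ?_)
  field_simp
  ring

end Pool.Agent.Helper61A.DS
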