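import Mathlib
import Pool.Agent.Helper61A.DS.Exc

/-! The number of exceptional multiples. -/

set_option autoImplicit false

namespace Pool.Agent.Helper61A.DS

open Finset Filter Topology
open scoped Real
open Pool.Agent.H807R2.Dav (ee norm_ee ee_add ee_zero ee_int ee_add_int ee_pow)

lemma simply_shift {b : ℕ} {y : ℝ} (h : SimplyNormal b y) : SimplyNormal b (b * y) := by
  intro d hd
  have h1 := h d hd
  set e : ℝ := if ⌊y * (b : ℝ) ^ (0 + 1)⌋ % (b : ℤ) = (d : ℤ) then 1 else 0 with he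
  have h2 : ∀ N : ℕ, (((range N).filter (fun i : ℕ => ⌊b * y * (b : ℝ) ^ (i + 1)⌋ % (b : ℤ) = (d : ℤ))).card : ℝ) =
      (((range (N + 1)).filter (fun i : ℕ => ⌊y * (b : ℝ) ^ (i + 1)⌋ % (b : ℤ) = (d : ℤ))).card : ℝ) - e := by
    intro N
    rw [card_filter, card_filter, sum_range_succ']
    push_cast
    have h3 : ∀ i : ℕ, (b : ℝ) * y * (b : ℝ) ^ (i + 1) = y * (b : ℝ) ^ (i + 1 + 1) := fun i => by
      rw [pow_succ (b : ℝ) (i + 1)]; ring
    simp only [h3]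
    rw [he]
    push_cast
    ring
  have h3 : Tendsto (fun N : ℕ => (((range (N + 1)).filter
      (fun i : ℕ => ⌊y * (b : ℝ) ^ (i + 1)⌋ % (b : ℤ) = (d : ℤ))).card : ℝ) / ((N + 1 : ℕ) : ℝ)) atTop (𝓝 (1 / (b : ℝ))) :=
    h1.comp (tendsto_add_atTop_nat 1)
  have h4 : Tendsto (fun N : ℕ => ((N + 1 : ℕ) : ℝ) / (N : ℝ)) atTop (𝓝 1) := by
    have h5 : Tendsto (fun N : ℕ => 1 + (1 : ℝ) / (N : ℝ)) atTop (𝓝 (1 + 0)) :=
      tendsto_const_nhds.add tendsto_one_div_atTop_nhds_zero_nat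
    rw [add_zero] at h5
    refine h5.congr' ?_
    filter_upwards [eventually_ge_atTop 1] with N hN
    have : (N : ℝ) ≠ 0 := by exact_mod_cast (by omega : N ≠ 0)
    push_cast
    field_simp
  have h5 : Tendsto (fun N : ℕ => e / (N : ℝ)) atTop (𝓝 0) := tendsto_const_div_atTop_nhds_zero_nat e
  have h6 := (h3.mul h4).sub h5
  rw [mul_one, sub_zero] at h6
  refine h6.congr' ?_
  filter_upwards [eventually_ge_atTop 1] with N hN
  have hN0 : (N : ℝ) ≠ 0 := by exact_mod_cast (by omega : N ≠ 0)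
  have hN1 : ((N + 1 : ℕ) : ℝ) ≠ 0 := by exact_mod_cast (by omega : N + 1 ≠ 0)
  rw [h2]
  field_simp

lemma simply_pow {b : ℕ} {y : ℝ} (h : SimplyNormal b y) (s : ℕ) : SimplyNormal b ((b : ℝ) ^ s * y) := by
  induction s with
  | zero => simpa using h
  | succ s ih =>
    have := simply_shift ih
    rw [pow_succ', mul_assoc]
    exact this

lemma conj_ee (t : ℝ) : (starRingEnd ℂ) (ee t) = ee (-t) := by
  rw [ee, ee, ← Complex.exp_conj]
  congr 1
  simp only [map_mul, Complex.conj_I, Complex.conj_ofReal, map_ofNat]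
  push_cast
  ring

lemma trunc_bound (f : ℕ → ℂ) (hf : ∀ n, ‖f n‖ ≤ 1) (N l : ℕ) :
    ‖∑ n ∈ range (N - l), f n‖ ≤ ‖∑ n ∈ range N, f n‖ + l := by
  have h1 : ∑ n ∈ range N, f n = ∑ n ∈ range (N - l), f n + ∑ n ∈ Ico (N - l) N, f n := by
    rw [range_eq_Ico, range_eq_Ico, sum_Ico_consecutive _ (Nat.zero_le _) (Nat.sub_le _ _)]
  have h2 : ‖∑ n ∈ Ico (N - l) N, f n‖ ≤ l := by
    refine (norm_sum_le _ _).trans ((sum_le_sum fun n _ => hf n).trans ?_)
    rw [sum_const, Nat.card_Ico, nsmul_eq_mul, mul_one]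
    have : N - (N - l) ≤ l := by omega
    exact_mod_cast this
  have h3 : ∑ n ∈ range (N - l), f n = ∑ n ∈ range N, f n - ∑ n ∈ Ico (N - l) N, f n := by
    rw [h1]; ring
  rw [h3]
  exact (norm_sub_le _ _).trans (by linarith)

open Classical in
/-- many differences `h (b ^ l - 1)` have a bad multiple -/
lemma vdc_lower {b : ℕ} (hb : 3 ≤ b) {x : ℝ} {h0 : ℕ} {δ : ℝ} (hδ : 0 < δ)
    (hfreq : ∃ᶠ N : ℕ in atTop, δ * N < ‖∑ n ∈ range N, ee (h0 * (x * (b : ℝ) ^ n))‖) {K : ℕ}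
    (hK : ∀ (x : ℝ) (h : ℕ),
    (∀ k ∈ Icc 1 K, Nat.Coprime k b → SimplyNormal b (((k * h : ℕ) : ℝ) * x)) →
    ∀ᶠ N : ℕ in atTop, ‖∑ n ∈ range N, ee (h * (x * (b : ℝ) ^ n))‖ ≤ (δ ^ 2 / 4) * N) (H : ℕ) :
    H * (δ ^ 2 / 4) - 1 ≤ (((Ico 1 H).filter (fun l => ∃ k ∈ Icc 1 K, Nat.Coprime k b ∧
      ¬ SimplyNormal b (((k * (h0 * (b ^ l - 1)) : ℕ) : ℝ) * x))).card : ℝ) := by
  set P : ℕ → Prop := fun l => ∃ k ∈ Icc 1 K, Nat.Coprime k b ∧
      ¬ SimplyNormal b (((k * (h0 * (b ^ l - 1)) : ℕ) : ℝ) * x) with hP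
  set D : Finset ℕ := (Ico 1 H).filter P with hD
  set δ1 : ℝ := δ ^ 2 / 4 with hδ1
  have hδ10 : 0 < δ1 := by positivity
  have h1 : ∀ᶠ N : ℕ in atTop, ∀ l ∈ Ico 1 H, ¬ P l →
      ‖∑ n ∈ range N, ee (((h0 * (b ^ l - 1) : ℕ) : ℝ) * (x * (b : ℝ) ^ n))‖ ≤ δ1 * N := by
    rw [Filter.eventually_all_finset]
    intro l _
    by_cases hl : P l
    · exact Filter.Eventually.of_forall fun N h => absurd hl h
    · have h2 := hK x (h0 * (b ^ l - 1)) (fun k hk hc => by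
        by_contra h3
        exact hl ⟨k, hk, hc, h3⟩)
      filter_upwards [h2] with N hN _
      exact hN
  set A : ℝ := 1 + 2 * D.card + 2 * H * δ1 with hA
  have hA0 : 0 ≤ A := by positivity
  obtain ⟨N2, hN2⟩ := exists_nat_ge (2 * (H : ℝ) ^ 2 + A * H + 2 * (H : ℝ) ^ 3 + 1)
  obtain ⟨N, hN1, hN3, hN4⟩ := (hfreq.and_eventually (h1.and (eventually_ge_atTop N2))).exists
  have hNr : 2 * (H : ℝ) ^ 2 + A * H + 2 * (H : ℝ) ^ 3 + 1 ≤ N := hN2.trans (by exact_mod_cast hN4)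
  have hH0 : (0 : ℝ) ≤ H := Nat.cast_nonneg H
  have hN0 : (1 : ℝ) ≤ N := by
    have : 0 ≤ 2 * (H : ℝ) ^ 2 + A * H + 2 * (H : ℝ) ^ 3 := by positivity
    linarith
  set z : ℕ → ℂ := fun n => ee (h0 * (x * (b : ℝ) ^ n)) with hz
  have hv := Pool.Agent.H469R2.NK.vdcH z (fun n => (norm_ee _).le) N H
  have hcor : ∀ l ∈ Ico 1 H, ‖∑ n ∈ range (N - l), z (n + l) * (starRingEnd ℂ) (z n)‖ ≤
      (if P l then (N : ℝ) else δ1 * N + H) := by
    intro l hl
    have e1 : ∀ n, z (n + l) * (starRingEnd ℂ) (z n) =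
        ee (((h0 * (b ^ l - 1) : ℕ) : ℝ) * (x * (b : ℝ) ^ n)) := by
      intro n
      simp only [hz]
      rw [conj_ee, ← ee_add]
      congr 1
      have : ((b ^ l - 1 : ℕ) : ℝ) = (b : ℝ) ^ l - 1 := by
        rw [Nat.cast_sub (Nat.one_le_pow _ _ (by omega))]; push_cast; ring
      rw [Nat.cast_mul, this, pow_add]
      ring
    rw [sum_congr rfl fun n _ => e1 n]
    split_ifs with hp
    · refine (norm_sum_le _ _).trans ?_
      simp only [norm_ee, sum_const, card_range, nsmul_eq_mul, mul_one]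
      exact_mod_cast Nat.sub_le N l
    · refine (trunc_bound _ (fun n => (norm_ee _).le) N l).trans ?_
      have h5 := hN3 l hl hp
      have h6 : (l : ℝ) ≤ H := by exact_mod_cast (mem_Ico.1 hl).2.le
      linarith
  have hsum : ∑ l ∈ Ico 1 H, ‖∑ n ∈ range (N - l), z (n + l) * (starRingEnd ℂ) (z n)‖ ≤
      D.card * N + H * (δ1 * N + H) := by
    refine (sum_le_sum hcor).trans ?_
    rw [sum_ite, sum_const, sum_const, nsmul_eq_mul, nsmul_eq_mul]
    have h7 : (((Ico 1 H).filter (fun l => ¬ P l)).card : ℝ) ≤ H := by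
      have : ((Ico 1 H).filter (fun l => ¬ P l)).card ≤ H := by
        refine (card_filter_le _ _).trans ?_
        rw [Nat.card_Ico]; omega
      exact_mod_cast this
    have h8 : (0 : ℝ) ≤ δ1 * N + H := by positivity
    have := mul_le_mul_of_nonneg_right h7 h8
    linarith
  have h9 : H * (δ * N) ^ 2 ≤ H * ‖∑ n ∈ range N, z n‖ ^ 2 := by
    apply mul_le_mul_of_nonneg_left _ hH0
    exact pow_le_pow_left₀ (by positivity) hN1.le 2
  have h10 : (N + H : ℝ) * (N + 2 * ∑ l ∈ Ico 1 H, ‖∑ n ∈ range (N - l), z (n + l) * (starRingEnd ℂ) (z n)‖) ≤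
      (N + H) * (A * N + 2 * H ^ 2) := by
    apply mul_le_mul_of_nonneg_left _ (by positivity)
    rw [hA]
    nlinarith
  have h11 : (N + H : ℝ) * (A * N + 2 * H ^ 2) ≤ (A + 1) * N ^ 2 := by
    have h12 : (2 * (H : ℝ) ^ 2 + A * H + 2 * (H : ℝ) ^ 3) * N ≤ N * N := by
      apply mul_le_mul_of_nonneg_right _ (by linarith)
      linarith
    have h13 : 2 * (H : ℝ) ^ 3 ≤ 2 * (H : ℝ) ^ 3 * N := le_mul_of_one_le_right (by positivity) hN0
    nlinarith
  have h14 : H * δ ^ 2 * (N : ℝ) ^ 2 ≤ (A + 1) * N ^ 2 := by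
    have : H * (δ * N) ^ 2 = H * δ ^ 2 * (N : ℝ) ^ 2 := by ring
    linarith
  have h15 : H * δ ^ 2 ≤ A + 1 := le_of_mul_le_mul_right h14 (by positivity)
  rw [hA] at h15
  rw [hδ1] at h15 ⊢
  linarith

lemma coprime_pow_sub {b l : ℕ} (hb : 1 ≤ b) (hl : 1 ≤ l) : Nat.Coprime (b ^ l - 1) b := by
  have h1 : Nat.Coprime (b ^ l - 1) (b ^ l) := by
    have : b ^ l = (b ^ l - 1) + 1 := (Nat.sub_add_cancel (Nat.one_le_pow _ _ hb)).symm
    nth_rewrite 2 [this]
    rw [Nat.coprime_self_add_right]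
    exact Nat.coprime_one_right _
  exact Nat.Coprime.coprime_dvd_right (dvd_pow_self b (by omega)) h1

/-- If `x` is not normal then at least `c log X` of the integers `m ≤ X` not divisible by `b` are such that `m x`
is not simply normal. -/
theorem exc_log {b : ℕ} (hb : 3 ≤ b) {x : ℝ} (hx : ¬ Normal b x) : ∃ c : ℝ, 0 < c ∧ ∃ X0 : ℕ,
    ∀ X : ℕ, X0 ≤ X → c * Real.log X ≤
      (Set.ncard {m : ℕ | 1 ≤ m ∧ m ≤ X ∧ ¬ b ∣ m ∧ ¬ SimplyNormal b (m * x)} : ℝ) := by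
  classical
  have hb0 : 0 < b := by omega
  have h1 : ∃ t : ℕ, 1 ≤ t ∧ ∃ δ : ℝ, 0 < δ ∧ ∃ᶠ N : ℕ in atTop, δ * N < ‖∑ n ∈ range N, ee (t * (x * (b : ℝ) ^ n))‖ := by
    by_contra hcon
    apply hx
    refine normal_of_weyl (by omega) fun t ht η hη => ?_
    by_contra h2
    apply hcon
    refine ⟨t, ht, η, hη, ?_⟩
    rw [Filter.not_eventually] at h2
    exact h2.mono fun N hN => not_le.1 hN
  obtain ⟨h0, hh0, δ, hδ, hfreq⟩ := h1
  obtain ⟨K, hK1, hK⟩ := key_ev hb (ε := δ ^ 2 / 4) (by positivity)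
  have hlow := fun H => vdc_lower hb hδ hfreq hK H
  obtain ⟨s, h', hh', hs⟩ := Nat.exists_eq_pow_mul_and_not_dvd (n := h0) (by omega) b (by omega)
  have hh'0 : 0 < h' := Nat.pos_of_ne_zero (fun h => hh' (h ▸ dvd_zero b))
  -- bad multiples below X
  have hmain : ∀ H X : ℕ, K * h' * b ^ H ≤ X → H * (δ ^ 2 / 4) - 1 ≤
      K * (Set.ncard {m : ℕ | 1 ≤ m ∧ m ≤ X ∧ ¬ b ∣ m ∧ ¬ SimplyNormal b (m * x)} : ℝ) := by
    intro H X hX
    refine (hlow H).trans ?_
    set D : Finset ℕ := (Ico 1 H).filter (fun l => ∃ k ∈ Icc 1 K, Nat.Coprime k b ∧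
      ¬ SimplyNormal b (((k * (h0 * (b ^ l - 1)) : ℕ) : ℝ) * x)) with hD
    have hch : ∀ l : ℕ, ∃ k : ℕ, l ∈ D → (k ∈ Icc 1 K ∧ Nat.Coprime k b ∧
      ¬ SimplyNormal b (((k * (h0 * (b ^ l - 1)) : ℕ) : ℝ) * x)) := by
      intro l
      by_cases hl : l ∈ D
      · obtain ⟨k, hk1, hk2, hk3⟩ := (mem_filter.1 hl).2
        exact ⟨k, fun _ => ⟨hk1, hk2, hk3⟩⟩
      · exact ⟨0, fun h => absurd h hl⟩
    choose k hk using hch
    set φ : ℕ → ℕ := fun l => k l * (h' * (b ^ l - 1)) with hφ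
    have hbl : ∀ l ∈ D, 1 ≤ l ∧ l < H := fun l hl => mem_Ico.1 (mem_filter.1 hl).1
    have hφbad : ∀ l ∈ D, φ l ∈ {m : ℕ | 1 ≤ m ∧ m ≤ X ∧ ¬ b ∣ m ∧ ¬ SimplyNormal b (m * x)} := by
      intro l hl
      obtain ⟨hl1, hl2⟩ := hbl l hl
      obtain ⟨hk1, hk2, hk3⟩ := hk l hl
      have hnd : ¬ b ∣ φ l := by
        intro hd
        apply hh'
        have h3 : b ∣ h' * (b ^ l - 1) := Nat.Coprime.dvd_of_dvd_mul_left hk2.symm hd
        exact Nat.Coprime.dvd_of_dvd_mul_right (coprime_pow_sub hb0 hl1).symm h3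
      refine ⟨Nat.pos_of_ne_zero fun h => hnd (h ▸ dvd_zero b), ?_, hnd, ?_⟩
      · calc k l * (h' * (b ^ l - 1)) ≤ K * (h' * b ^ H) := by
              apply Nat.mul_le_mul (mem_Icc.1 hk1).2
              apply Nat.mul_le_mul_left
              exact (Nat.sub_le _ _).trans (Nat.pow_le_pow_right hb0 hl2.le)
          _ = K * h' * b ^ H := by ring
          _ ≤ X := hX
      · intro h4
        apply hk3
        have h5 := simply_pow h4 s
        have e : ((k l * (h0 * (b ^ l - 1)) : ℕ) : ℝ) * x = (b : ℝ) ^ s * ((φ l : ℕ) * x) := by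
          rw [hs]
          simp only [hφ]
          push_cast
          ring
        rw [e]
        exact h5
    have hfin : ({m : ℕ | 1 ≤ m ∧ m ≤ X ∧ ¬ b ∣ m ∧ ¬ SimplyNormal b (m * x)}).Finite :=
      (Set.finite_Icc 1 X).subset fun m hm => ⟨hm.1, hm.2.1⟩
    have h6 : (D.image φ).card ≤ Set.ncard {m : ℕ | 1 ≤ m ∧ m ≤ X ∧ ¬ b ∣ m ∧ ¬ SimplyNormal b (m * x)} := by
      rw [← Set.ncard_coe_finset]
      apply Set.ncard_le_ncard _ hfin
      intro m hm
      obtain ⟨l, hl, rfl⟩ := mem_image.1 (mem_coe.1 hm)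
      exact hφbad l hl
    have h7 : D.card ≤ K * (D.image φ).card := by
      apply card_le_mul_card_image
      intro m _
      have h8 : ((D.filter fun l => φ l = m)).card ≤ (Icc 1 K).card := by
        apply card_le_card_of_injOn k
        · intro l hl
          exact (hk l (mem_filter.1 (mem_coe.1 hl)).1).1
        · intro l hl l' hl' hll
          have hl1 := mem_filter.1 (mem_coe.1 hl)
          have hl2 := mem_filter.1 (mem_coe.1 hl')
          have h9 : φ l = φ l' := hl1.2.trans hl2.2.symm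
          simp only [hφ] at h9
          have hll : k l = k l' := hll
          rw [hll] at h9
          have hk0 : 0 < k l' := (mem_Icc.1 (hk l' hl2.1).1).1
          have h10 := Nat.eq_of_mul_eq_mul_left hk0 h9
          have h11 := Nat.eq_of_mul_eq_mul_left hh'0 h10
          have h12 : b ^ l = b ^ l' := by
            have a1 := Nat.one_le_pow l b hb0
            have a2 := Nat.one_le_pow l' b hb0
            omega
          exact Nat.pow_right_injective (by omega) h12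
      rwa [Nat.card_Icc, Nat.add_sub_cancel] at h8
    have h8 : D.card ≤ K * Set.ncard {m : ℕ | 1 ≤ m ∧ m ≤ X ∧ ¬ b ∣ m ∧ ¬ SimplyNormal b (m * x)} :=
      h7.trans (Nat.mul_le_mul_left _ h6)
    exact_mod_cast h8
  -- asymptotics
  set δ' : ℝ := δ ^ 2 / 4 with hδ'
  have hδ'0 : 0 < δ' := by positivity
  have hKr : (0 : ℝ) < K := by exact_mod_cast hK1
  have hlb : 0 < Real.log b := Real.log_pos (by exact_mod_cast (by omega : 1 < b))
  have hKh : 0 < K * h' := Nat.mul_pos hK1 hh'0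
  have hlKh : 0 ≤ Real.log ((K * h' : ℕ) : ℝ) := Real.log_natCast_nonneg _
  refine ⟨δ' / (2 * K * Real.log b), by positivity, ?_⟩
  obtain ⟨n1, hn1⟩ := eventually_atTop.1 (ev_log_ge
    ((δ' * (Real.log ((K * h' : ℕ) : ℝ) / Real.log b + 1) + 1) * (2 * Real.log b / δ')))
  refine ⟨max n1 (K * h'), fun X hX => ?_⟩
  have hX1 := hn1 X (le_trans (le_max_left _ _) hX)
  have hX2 : K * h' ≤ X := le_trans (le_max_right _ _) hX
  set H : ℕ := Nat.log b (X / (K * h')) with hH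
  have hq : X / (K * h') ≠ 0 := (Nat.div_pos hX2 hKh).ne'
  have h2 : b ^ H ≤ X / (K * h') := Nat.pow_log_le_self b hq
  have h3 : K * h' * b ^ H ≤ X := (Nat.mul_le_mul_left _ h2).trans (Nat.mul_div_le X (K * h'))
  have h4 : X / (K * h') < b ^ (H + 1) := Nat.lt_pow_succ_log_self (by omega) _
  have h5 : X < b ^ (H + 1) * (K * h') := (Nat.div_lt_iff_lt_mul hKh).1 h4
  have hX0 : (0 : ℝ) < X := by exact_mod_cast hKh.trans_le hX2
  have h6 : Real.log X ≤ (H + 1) * Real.log b + Real.log ((K * h' : ℕ) : ℝ) := by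
    have h7 : (X : ℝ) ≤ (b : ℝ) ^ (H + 1) * ((K * h' : ℕ) : ℝ) := by exact_mod_cast h5.le
    have h8 := Real.log_le_log hX0 h7
    rw [Real.log_mul (by positivity) (by exact_mod_cast hKh.ne'), Real.log_pow] at h8
    push_cast at h8 ⊢
    linarith
  have h7 := hmain H X h3
  set n : ℝ := (Set.ncard {m : ℕ | 1 ≤ m ∧ m ≤ X ∧ ¬ b ∣ m ∧ ¬ SimplyNormal b (m * x)} : ℝ) with hn
  have h8 : Real.log X / Real.log b ≤ H + 1 + Real.log ((K * h' : ℕ) : ℝ) / Real.log b := by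
    rw [div_le_iff₀ hlb, add_mul, div_mul_cancel₀ _ hlb.ne']
    exact h6
  have h9 : δ' * (Real.log ((K * h' : ℕ) : ℝ) / Real.log b + 1) + 1 ≤ δ' / (2 * Real.log b) * Real.log X := by
    have h10 := mul_le_mul_of_nonneg_left hX1 (show 0 ≤ δ' / (2 * Real.log b) by positivity)
    refine le_trans (le_of_eq ?_) h10
    field_simp
  have h10 : δ' * (Real.log X / Real.log b) ≤ δ' * (H + 1 + Real.log ((K * h' : ℕ) : ℝ) / Real.log b) :=
    mul_le_mul_of_nonneg_left h8 hδ'0.le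
  have h11 : δ' / (2 * Real.log b) * Real.log X = (δ' * (Real.log X / Real.log b)) / 2 := by field_simp
  have h12 : (δ' * (Real.log X / Real.log b)) / 2 ≤ K * n := by
    have e1 : δ' * (↑H + 1 + Real.log ((K * h' : ℕ) : ℝ) / Real.log b) =
        (H * δ' - 1) + (δ' * (Real.log ((K * h' : ℕ) : ℝ) / Real.log b + 1) + 1) := by ring
    rw [e1] at h10
    rw [h11] at h9
    linarith
  have h13 : δ' / (2 * K * Real.log b) * Real.log X = ((δ' * (Real.log X / Real.log b)) / 2) / K := by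
    field_simp
  rw [h13, div_le_iff₀ hKr]
  linarith

end Pool.Agent.Helper61A.DS
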