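import Mathlib
import Pool.Agent.Helper61A.DS.Exc2

/-! The number of exceptional multiples exceeds every power of the logarithm. -/

set_option autoImplicit false

namespace Pool.Agent.Helper61A.DS

open Finset Filter Topology
open scoped Real
open Pool.Agent.H807R2.Dav (ee norm_ee ee_add ee_zero ee_int ee_add_int ee_pow)

/-- the frequencies at which the exponential sums are often large -/
def Frq (b : ℕ) (x : ℝ) (δ : ℝ) (h : ℕ) : Prop :=
  ∃ᶠ N : ℕ in atTop, δ * N < ‖∑ n ∈ range N, ee (h * (x * (b : ℝ) ^ n))‖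

open Classical in
lemma vdc_step {b : ℕ} (hb : 3 ≤ b) {x : ℝ} {h0 : ℕ} {δ : ℝ} (hδ : 0 < δ)
    (hfreq : Frq b x δ h0) (H : ℕ) :
    H * (δ ^ 2 / 4) - 1 ≤ (((Ico 1 H).filter (fun l => Frq b x (δ ^ 2 / 4) (h0 * (b ^ l - 1)))).card : ℝ) := by
  set P : ℕ → Prop := fun l => Frq b x (δ ^ 2 / 4) (h0 * (b ^ l - 1)) with hP
  set D : Finset ℕ := (Ico 1 H).filter P with hD
  set δ1 : ℝ := δ ^ 2 / 4 with hδ1
  have hδ10 : 0 < δ1 := by positivity
  have h1 : ∀ᶠ N : ℕ in atTop, ∀ l ∈ Ico 1 H, ¬ P l →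
      ‖∑ n ∈ range N, ee (((h0 * (b ^ l - 1) : ℕ) : ℝ) * (x * (b : ℝ) ^ n))‖ ≤ δ1 * N := by
    rw [Filter.eventually_all_finset]
    intro l _
    by_cases hl : P l
    · exact Filter.Eventually.of_forall fun N h => absurd hl h
    · have h2 : ¬ ∃ᶠ N : ℕ in atTop, δ1 * N <
          ‖∑ n ∈ range N, ee (((h0 * (b ^ l - 1) : ℕ) : ℝ) * (x * (b : ℝ) ^ n))‖ := hl
      rw [Filter.not_frequently] at h2
      filter_upwards [h2] with N hN _
      exact not_lt.1 hN
  set A : ℝ := 1 + 2 * D.card + 2 * H * δ1 with hA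
  have hA0 : 0 ≤ A := by positivity
  obtain ⟨N2, hN2⟩ := exists_nat_ge (2 * (H : ℝ) ^ 2 + A * H + 2 * (H : ℝ) ^ 3 + 1)
  obtain ⟨N, hN1, hN3, hN4⟩ := (Filter.Frequently.and_eventually hfreq (h1.and (eventually_ge_atTop N2))).exists
  have hNr : 2 * (H : ℝ) ^ 2 + A * H + 2 * (H : ℝ) ^ 3 + 1 ≤ N := hN2.trans (by exact_mod_cast hN4)
  have hH0 : (0 : ℝ) ≤ H := Nat.cast_nonneg H
  have hN0 : (1 : ℝ) ≤ N := by
    have : 0 ≤ 2 * (H : ℝ) ^ 2 + A * H + 2 * (H : ℝ) ^ 3 := by positivity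
    linarith
  set z : ℕ → ℂ := fun n => ee (h0 * (x * (b : ℝ) ^ n)) with hz
  have hv := Pool.Agent.H469R2.NK.vdcH z (fun n => (norm_ee _).le) N H
  have hcor : ∀ l ∈ Ico 1 H, ‖∑ n ∈ range (N - l), z (n + l) * (starRingEnd ℂ) (z n)‖ ≤
      (if P l then (N : ℝ) else δ1 * N + H) := by
    intro l hl
    have e1 : ∀ n, z (n + l) * (starRingEnd ℂ) (z n) =
        ee (((h0 * (b ^ l - 1) : ℕ) : ℝ) * (x * (b : ℝ) ^ n)) := by
      intro n
      simp only [hz]
      rw [conj_ee, ← ee_add]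
      congr 1
      have : ((b ^ l - 1 : ℕ) : ℝ) = (b : ℝ) ^ l - 1 := by
        rw [Nat.cast_sub (Nat.one_le_pow _ _ (by omega))]; push_cast; ring
      rw [Nat.cast_mul, this, pow_add]
      ring
    rw [sum_congr rfl fun n _ => e1 n]
    split_ifs with hp
    · refine (norm_sum_le _ _).trans ?_
      simp only [norm_ee, sum_const, card_range, nsmul_eq_mul, mul_one]
      exact_mod_cast Nat.sub_le N l
    · refine (trunc_bound _ (fun n => (norm_ee _).le) N l).trans ?_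
      have h5 := hN3 l hl hp
      have h6 : (l : ℝ) ≤ H := by exact_mod_cast (mem_Ico.1 hl).2.le
      linarith
  have hsum : ∑ l ∈ Ico 1 H, ‖∑ n ∈ range (N - l), z (n + l) * (starRingEnd ℂ) (z n)‖ ≤
      D.card * N + H * (δ1 * N + H) := by
    refine (sum_le_sum hcor).trans ?_
    rw [sum_ite, sum_const, sum_const, nsmul_eq_mul, nsmul_eq_mul]
    have h7 : (((Ico 1 H).filter (fun l => ¬ P l)).card : ℝ) ≤ H := by
      have : ((Ico 1 H).filter (fun l => ¬ P l)).card ≤ H := by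
        refine (card_filter_le _ _).trans ?_
        rw [Nat.card_Ico]; omega
      exact_mod_cast this
    have h8 : (0 : ℝ) ≤ δ1 * N + H := by positivity
    have := mul_le_mul_of_nonneg_right h7 h8
    linarith
  have h9 : H * (δ * N) ^ 2 ≤ H * ‖∑ n ∈ range N, z n‖ ^ 2 := by
    apply mul_le_mul_of_nonneg_left _ hH0
    exact pow_le_pow_left₀ (by positivity) hN1.le 2
  have h10 : (N + H : ℝ) * (N + 2 * ∑ l ∈ Ico 1 H, ‖∑ n ∈ range (N - l), z (n + l) * (starRingEnd ℂ) (z n)‖) ≤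
      (N + H) * (A * N + 2 * H ^ 2) := by
    apply mul_le_mul_of_nonneg_left _ (by positivity)
    rw [hA]
    nlinarith
  have h11 : (N + H : ℝ) * (A * N + 2 * H ^ 2) ≤ (A + 1) * N ^ 2 := by
    have h12 : (2 * (H : ℝ) ^ 2 + A * H + 2 * (H : ℝ) ^ 3) * N ≤ N * N := by
      apply mul_le_mul_of_nonneg_right _ (by linarith)
      linarith
    have h13 : 2 * (H : ℝ) ^ 3 ≤ 2 * (H : ℝ) ^ 3 * N := le_mul_of_one_le_right (by positivity) hN0
    nlinarith
  have h14 : H * δ ^ 2 * (N : ℝ) ^ 2 ≤ (A + 1) * N ^ 2 := by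
    have : H * (δ * N) ^ 2 = H * δ ^ 2 * (N : ℝ) ^ 2 := by ring
    linarith
  have h15 : H * δ ^ 2 ≤ A + 1 := le_of_mul_le_mul_right h14 (by positivity)
  rw [hA] at h15
  rw [hδ1] at h15 ⊢
  linarith

/-- many products of numbers `b ^ l - 1` are frequent -/
lemma many_frq {b : ℕ} (hb : 3 ≤ b) (x : ℝ) : ∀ (r : ℕ) (δ : ℝ), 0 < δ → ∃ δ' : ℝ, 0 < δ' ∧ ∃ c : ℝ, 0 < c ∧
    ∃ A0 : ℕ, ∀ h : ℕ, Frq b x δ h → ∀ A : ℕ, A0 ≤ A → ∃ (V : Finset ℕ) (A' : ℕ), A' ≤ A ∧ c * A ≤ A' ∧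
      c * (A : ℝ) ^ r ≤ V.card ∧ ∀ v ∈ V, Frq b x δ' (h * v) ∧ (v : ℤ) ≡ (-1) ^ r [ZMOD (b : ℤ) ^ A'] ∧
        v ≤ b ^ (r * A) ∧ Nat.Coprime v b := by
  classical
  have hb0 : 0 < b := by omega
  intro r
  induction r with
  | zero =>
    intro δ hδ
    refine ⟨δ, hδ, 1, one_pos, 0, fun h hh A _ => ⟨{1}, A, le_rfl, by simp, by simp, ?_⟩⟩
    intro v hv
    rw [mem_singleton] at hv
    subst hv
    refine ⟨by simpa using hh, by simp, by simp, Nat.coprime_one_left b⟩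
  | succ r ih =>
    intro δ hδ
    obtain ⟨δ', hδ', c, hc, A0, hV⟩ := ih δ hδ
    set δ2 : ℝ := δ' ^ 2 / 4 with hδ2
    have hδ20 : 0 < δ2 := by positivity
    obtain ⟨n1, hn1⟩ := exists_nat_ge (4 / (c * δ2))
    set c' : ℝ := min (min c (c * δ2 / 4)) (c * (c * δ2 / 4)) with hc'
    have hc'0 : 0 < c' := by
      rw [hc']
      exact lt_min (lt_min hc (by positivity)) (by positivity)
    have hc'1 : c' ≤ c := (min_le_left _ _).trans (min_le_left _ _)
    have hc'2 : c' ≤ c * δ2 / 4 := (min_le_left _ _).trans (min_le_right _ _)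
    have hc'3 : c' ≤ c * (c * δ2 / 4) := min_le_right _ _
    refine ⟨δ2, hδ20, c', hc'0, max A0 n1, fun h hh A hA => ?_⟩
    obtain ⟨V, A', hA'A, hA', hVc, hVp⟩ := hV h hh A (le_trans (le_max_left _ _) hA)
    have hAr : 4 / (c * δ2) ≤ A := hn1.trans (by exact_mod_cast le_trans (le_max_right _ _) hA)
    have hA0r : (0 : ℝ) ≤ A := Nat.cast_nonneg A
    have hcA : 1 ≤ c * δ2 / 4 * A := by
      rw [div_le_iff₀ (by positivity)] at hAr
      linarith
    set A2 : ℕ := min A' ⌊(A' : ℝ) * δ2 / 2⌋₊ with hA2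
    have hA2A' : A2 ≤ A' := min_le_left _ _
    have hA2le : (A2 : ℝ) ≤ A' * δ2 / 2 :=
      le_trans (Nat.cast_le.2 (min_le_right _ _)) (Nat.floor_le (by positivity))
    have hbase : c * δ2 / 4 * A ≤ A' * δ2 / 2 - 1 := by
      have h1 : c * A * δ2 ≤ A' * δ2 := mul_le_mul_of_nonneg_right hA' hδ20.le
      nlinarith
    have hA2ge : c' * A ≤ A2 := by
      rw [hA2, Nat.cast_min, le_min_iff]
      constructor
      · exact (mul_le_mul_of_nonneg_right hc'1 hA0r).trans hA'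
      · have h1 : (A' : ℝ) * δ2 / 2 < ⌊(A' : ℝ) * δ2 / 2⌋₊ + 1 := Nat.lt_floor_add_one _
        have h2 := mul_le_mul_of_nonneg_right hc'2 hA0r
        linarith
    set D : ℕ → Finset ℕ := fun v => ((Ico 1 A').filter (fun l => Frq b x δ2 (h * v * (b ^ l - 1)))) \ range A2 with hD
    have hDc : ∀ v ∈ V, c * δ2 / 4 * A ≤ (D v).card := by
      intro v hv
      have h1 := vdc_step hb hδ' (hVp v hv).1 A'
      rw [← hδ2] at h1
      have h2 : ((Ico 1 A').filter (fun l => Frq b x δ2 (h * v * (b ^ l - 1)))).card ≤ (D v).card + A2 := by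
        have := card_le_card_sdiff_add_card (t := range A2)
          (s := (Ico 1 A').filter (fun l => Frq b x δ2 (h * v * (b ^ l - 1))))
        rw [card_range] at this
        exact this
      have h3 : (((Ico 1 A').filter (fun l => Frq b x δ2 (h * v * (b ^ l - 1)))).card : ℝ) ≤ (D v).card + A2 := by
        exact_mod_cast h2
      linarith
    have hDm : ∀ v l, l ∈ D v → 1 ≤ l ∧ l < A' ∧ A2 ≤ l ∧ Frq b x δ2 (h * v * (b ^ l - 1)) := by
      intro v l hl
      rw [hD, Finset.mem_sdiff, mem_filter, mem_Ico, mem_range] at hl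
      exact ⟨hl.1.1.1, hl.1.1.2, not_lt.1 hl.2, hl.1.2⟩
    set f : (Σ _ : ℕ, ℕ) → ℕ := fun p => p.1 * (b ^ p.2 - 1) with hf
    have hinj : Set.InjOn f (V.sigma D : Finset (Σ _ : ℕ, ℕ)) := by
      rintro ⟨v, l⟩ hp ⟨v', l'⟩ hp' hff
      rw [mem_coe, mem_sigma] at hp hp'
      obtain ⟨hv, hl⟩ := hp
      obtain ⟨hv', hl'⟩ := hp'
      simp only at hv hl hv' hl'
      obtain ⟨hl1, hl2, -, -⟩ := hDm v l hl
      obtain ⟨hl1', hl2', -, -⟩ := hDm v' l' hl'
      have hff : v * (b ^ l - 1) = v' * (b ^ l' - 1) := hff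
      have hz : (v : ℤ) * ((b : ℤ) ^ l - 1) = (v' : ℤ) * ((b : ℤ) ^ l' - 1) := by
        have a1 := Nat.one_le_pow l b hb0
        have a2 := Nat.one_le_pow l' b hb0
        have h3 : ((v * (b ^ l - 1) : ℕ) : ℤ) = ((v' * (b ^ l' - 1) : ℕ) : ℤ) := by rw [hff]
        rw [Nat.cast_mul, Nat.cast_mul, Nat.cast_sub a1, Nat.cast_sub a2] at h3
        push_cast at h3
        exact h3
      have h4 : (-1 : ℤ) ^ r * ((b : ℤ) ^ l - 1) ≡ (-1 : ℤ) ^ r * ((b : ℤ) ^ l' - 1) [ZMOD (b : ℤ) ^ A'] := by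
        have h5 := ((hVp v hv).2.1.symm.mul_right ((b : ℤ) ^ l - 1))
        have h6 := ((hVp v' hv').2.1.mul_right ((b : ℤ) ^ l' - 1))
        rw [← hz] at h6
        exact h5.trans h6
      have h5 : (b : ℤ) ^ l ≡ (b : ℤ) ^ l' [ZMOD (b : ℤ) ^ A'] := by
        have h6 := (h4.mul_left ((-1 : ℤ) ^ r)).add_right 1
        have h7 : ∀ z : ℤ, (-1 : ℤ) ^ r * ((-1 : ℤ) ^ r * (z - 1)) + 1 = z := by
          intro z
          rw [← mul_assoc, ← pow_add, ← two_mul, pow_mul]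
          norm_num
        rwa [h7, h7] at h6
      have h6 : b ^ l = b ^ l' := by
        have h7 : b ^ l ≡ b ^ l' [MOD b ^ A'] := by
          rw [← Int.natCast_modEq_iff]
          push_cast
          exact h5
        exact Nat.ModEq.eq_of_lt_of_lt h7 (Nat.pow_lt_pow_right (by omega) hl2) (Nat.pow_lt_pow_right (by omega) hl2')
      have h7 : l = l' := Nat.pow_right_injective (by omega) h6
      subst h7
      have h8 : 0 < b ^ l - 1 := by
        have : b ^ 1 ≤ b ^ l := Nat.pow_le_pow_right hb0 hl1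
        rw [pow_one] at this
        omega
      have h9 := Nat.eq_of_mul_eq_mul_right h8 hff
      subst h9
      rfl
    refine ⟨(V.sigma D).image f, A2, hA2A'.trans hA'A, hA2ge, ?_, ?_⟩
    · rw [card_image_of_injOn hinj, card_sigma]
      push_cast
      have h1 := sum_le_sum hDc
      rw [sum_const, nsmul_eq_mul] at h1
      refine le_trans ?_ h1
      have h2 : c * (A : ℝ) ^ r * (c * δ2 / 4 * A) ≤ V.card * (c * δ2 / 4 * A) :=
        mul_le_mul_of_nonneg_right hVc (by positivity)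
      refine le_trans ?_ h2
      have h3 : c * (A : ℝ) ^ r * (c * δ2 / 4 * A) = (c * (c * δ2 / 4)) * (A : ℝ) ^ (r + 1) := by ring
      rw [h3]
      exact mul_le_mul_of_nonneg_right hc'3 (by positivity)
    · intro v' hv'
      obtain ⟨⟨v, l⟩, hp, rfl⟩ := mem_image.1 hv'
      rw [mem_sigma] at hp
      obtain ⟨hv, hl⟩ := hp
      simp only at hv hl
      obtain ⟨hl1, hl2, hl3, hl4⟩ := hDm v l hl
      obtain ⟨hv1, hv2, hv3, hv4⟩ := hVp v hv
      simp only [hf]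
      refine ⟨by rw [← mul_assoc]; exact hl4, ?_, ?_, ?_⟩
      · have a1 := Nat.one_le_pow l b hb0
        rw [Nat.cast_mul, Nat.cast_sub a1]
        push_cast
        rw [pow_succ]
        have h1 : (v : ℤ) ≡ (-1) ^ r [ZMOD (b : ℤ) ^ A2] := hv2.of_dvd (pow_dvd_pow _ hA2A')
        apply h1.mul
        have h2 : (b : ℤ) ^ l ≡ 0 [ZMOD (b : ℤ) ^ A2] := (Int.modEq_zero_iff_dvd).2 (pow_dvd_pow _ hl3)
        have h3 := h2.sub_right 1
        simpa using h3
      · calc v * (b ^ l - 1) ≤ b ^ (r * A) * b ^ A := by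
              apply Nat.mul_le_mul hv3
              exact (Nat.sub_le _ _).trans (Nat.pow_le_pow_right hb0 (hl2.le.trans hA'A))
          _ = b ^ ((r + 1) * A) := by rw [← pow_add]; congr 1; ring
      · exact Nat.Coprime.mul_left hv4 (coprime_pow_sub hb0 hl1)

/-- If `x` is not normal, the number of exceptional multiples exceeds every power of the logarithm. -/
theorem exc_pow {b : ℕ} (hb : 3 ≤ b) {x : ℝ} (hx : ¬ Normal b x) (B : ℕ) : ∀ᶠ X : ℕ in atTop,
    Real.log X ^ B ≤ (Set.ncard {m : ℕ | 1 ≤ m ∧ m ≤ X ∧ ¬ b ∣ m ∧ ¬ SimplyNormal b (m * x)} : ℝ) := by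
  classical
  have hb0 : 0 < b := by omega
  have h1 : ∃ t : ℕ, 1 ≤ t ∧ ∃ δ : ℝ, 0 < δ ∧ Frq b x δ t := by
    by_contra hcon
    apply hx
    refine normal_of_weyl (by omega) fun t ht η hη => ?_
    by_contra h2
    apply hcon
    refine ⟨t, ht, η, hη, ?_⟩
    rw [Filter.not_eventually] at h2
    exact h2.mono fun N hN => not_le.1 hN
  obtain ⟨h0, hh0, δ, hδ, hfreq⟩ := h1
  set r : ℕ := B + 1 with hr
  obtain ⟨δ', hδ', c, hc, A0, hV⟩ := many_frq hb x r δ hδ
  obtain ⟨K, hK1, hK⟩ := key_ev hb (ε := δ') hδ'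
  obtain ⟨s, h', hh', hs⟩ := Nat.exists_eq_pow_mul_and_not_dvd (n := h0) (by omega) b (by omega)
  have hh'0 : 0 < h' := Nat.pos_of_ne_zero (fun h => hh' (h ▸ dvd_zero b))
  have hKh : 0 < K * h' := Nat.mul_pos hK1 hh'0
  have hmain : ∀ A X : ℕ, A0 ≤ A → K * h' * b ^ (r * A) ≤ X → c * (A : ℝ) ^ r ≤
      K * (Set.ncard {m : ℕ | 1 ≤ m ∧ m ≤ X ∧ ¬ b ∣ m ∧ ¬ SimplyNormal b (m * x)} : ℝ) := by
    intro A X hA hX
    obtain ⟨V, A', -, -, hVc, hVp⟩ := hV h0 hfreq A hA
    refine hVc.trans ?_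
    have hch : ∀ v : ℕ, ∃ k : ℕ, v ∈ V → (k ∈ Icc 1 K ∧ Nat.Coprime k b ∧
      ¬ SimplyNormal b (((k * (h0 * v) : ℕ) : ℝ) * x)) := by
      intro v
      by_cases hv : v ∈ V
      · by_contra hcon
        push Not at hcon
        have h3 := hK x (h0 * v) (fun k hk hkb => by
          by_contra h4
          exact h4 ((hcon k).2 hk hkb))
        have h4 : ∃ᶠ N : ℕ in atTop, δ' * N < ‖∑ n ∈ range N, ee (((h0 * v : ℕ) : ℝ) * (x * (b : ℝ) ^ n))‖ :=
          (hVp v hv).1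
        obtain ⟨N, hN1, hN2⟩ := (h4.and_eventually h3).exists
        exact absurd hN2 (not_le.2 hN1)
      · exact ⟨0, fun h => absurd h hv⟩
    choose k hk using hch
    set φ : ℕ → ℕ := fun v => k v * (h' * v) with hφ
    have hφbad : ∀ v ∈ V, φ v ∈ {m : ℕ | 1 ≤ m ∧ m ≤ X ∧ ¬ b ∣ m ∧ ¬ SimplyNormal b (m * x)} := by
      intro v hv
      obtain ⟨hk1, hk2, hk3⟩ := hk v hv
      obtain ⟨-, -, hv3, hv4⟩ := hVp v hv
      have hnd : ¬ b ∣ φ v := by
        intro hd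
        apply hh'
        have h3 : b ∣ h' * v := Nat.Coprime.dvd_of_dvd_mul_left hk2.symm hd
        exact Nat.Coprime.dvd_of_dvd_mul_right hv4.symm h3
      refine ⟨Nat.pos_of_ne_zero fun h => hnd (h ▸ dvd_zero b), ?_, hnd, ?_⟩
      · calc k v * (h' * v) ≤ K * (h' * b ^ (r * A)) :=
              Nat.mul_le_mul (mem_Icc.1 hk1).2 (Nat.mul_le_mul_left _ hv3)
          _ = K * h' * b ^ (r * A) := by ring
          _ ≤ X := hX
      · intro h4
        apply hk3
        have h5 := simply_pow h4 s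
        have e : ((k v * (h0 * v) : ℕ) : ℝ) * x = (b : ℝ) ^ s * ((φ v : ℕ) * x) := by
          rw [hs]
          simp only [hφ]
          push_cast
          ring
        rw [e]
        exact h5
    have hfin : ({m : ℕ | 1 ≤ m ∧ m ≤ X ∧ ¬ b ∣ m ∧ ¬ SimplyNormal b (m * x)}).Finite :=
      (Set.finite_Icc 1 X).subset fun m hm => ⟨hm.1, hm.2.1⟩
    have h6 : (V.image φ).card ≤ Set.ncard {m : ℕ | 1 ≤ m ∧ m ≤ X ∧ ¬ b ∣ m ∧ ¬ SimplyNormal b (m * x)} := by
      rw [← Set.ncard_coe_finset]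
      apply Set.ncard_le_ncard _ hfin
      intro m hm
      obtain ⟨v, hv, rfl⟩ := mem_image.1 (mem_coe.1 hm)
      exact hφbad v hv
    have h7 : V.card ≤ K * (V.image φ).card := by
      apply card_le_mul_card_image
      intro m _
      have h8 : ((V.filter fun v => φ v = m)).card ≤ (Icc 1 K).card := by
        apply card_le_card_of_injOn k
        · intro v hv
          exact (hk v (mem_filter.1 (mem_coe.1 hv)).1).1
        · intro v hv v' hv' hvv
          have hl1 := mem_filter.1 (mem_coe.1 hv)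
          have hl2 := mem_filter.1 (mem_coe.1 hv')
          have h9 : φ v = φ v' := hl1.2.trans hl2.2.symm
          simp only [hφ] at h9
          have hvv : k v = k v' := hvv
          rw [hvv] at h9
          have hk0 : 0 < k v' := (mem_Icc.1 (hk v' hl2.1).1).1
          exact Nat.eq_of_mul_eq_mul_left hh'0 (Nat.eq_of_mul_eq_mul_left hk0 h9)
      rwa [Nat.card_Icc, Nat.add_sub_cancel] at h8
    have h8 : V.card ≤ K * Set.ncard {m : ℕ | 1 ≤ m ∧ m ≤ X ∧ ¬ b ∣ m ∧ ¬ SimplyNormal b (m * x)} :=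
      h7.trans (Nat.mul_le_mul_left _ h6)
    exact_mod_cast h8
  -- asymptotics
  have hKr : (0 : ℝ) < K := by exact_mod_cast hK1
  have hlb : 0 < Real.log b := Real.log_pos (by exact_mod_cast (by omega : 1 < b))
  have hrr : (0 : ℝ) < r := by exact_mod_cast (by omega : 0 < r)
  set q : ℝ := 1 / (2 * r * Real.log b) with hq
  have hq0 : 0 < q := by positivity
  have hE1 := ev_log_ge ((A0 + 2 + (Real.log ((K * h' : ℕ) : ℝ) / Real.log b + 1) / r) / q)
  have hE2 := ev_log_ge (K / (c * q ^ r))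
  filter_upwards [hE1, hE2, ev_log_ge 1, eventually_ge_atTop (K * h')] with X hX1 hX2 hX3 hX4
  set L : ℕ := Nat.log b (X / (K * h')) with hL
  set A : ℕ := L / r with hA
  have hqn : X / (K * h') ≠ 0 := (Nat.div_pos hX4 hKh).ne'
  have h2 : b ^ L ≤ X / (K * h') := Nat.pow_log_le_self b hqn
  have h3 : K * h' * b ^ (r * A) ≤ X := by
    have h4 : b ^ (r * A) ≤ b ^ L := Nat.pow_le_pow_right hb0 (Nat.mul_div_le L r)
    exact (Nat.mul_le_mul_left _ (h4.trans h2)).trans (Nat.mul_div_le X (K * h'))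
  have h4 : X / (K * h') < b ^ (L + 1) := Nat.lt_pow_succ_log_self (by omega) _
  have h5 : X < b ^ (L + 1) * (K * h') := (Nat.div_lt_iff_lt_mul hKh).1 h4
  have hX0 : (0 : ℝ) < X := by exact_mod_cast hKh.trans_le hX4
  have h6 : Real.log X ≤ (L + 1) * Real.log b + Real.log ((K * h' : ℕ) : ℝ) := by
    have h7 : (X : ℝ) ≤ (b : ℝ) ^ (L + 1) * ((K * h' : ℕ) : ℝ) := by exact_mod_cast h5.le
    have h8 := Real.log_le_log hX0 h7
    rw [Real.log_mul (by positivity) (by exact_mod_cast hKh.ne'), Real.log_pow] at h8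
    push_cast at h8 ⊢
    linarith
  have h7 : Real.log X / Real.log b ≤ L + 1 + Real.log ((K * h' : ℕ) : ℝ) / Real.log b := by
    rw [div_le_iff₀ hlb, add_mul, div_mul_cancel₀ _ hlb.ne']
    exact h6
  have h8 : (L : ℝ) < (A + 1) * r := by
    have : L < (A + 1) * r := by
      have := Nat.lt_div_mul_add (a := L) (b := r) (by omega)
      rw [hA]; linarith
    exact_mod_cast this
  have h9 : 2 * (q * Real.log X) = Real.log X / Real.log b / r := by
    rw [hq]; field_simp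
  have h10 : Real.log X / Real.log b / r < (A + 1) + (Real.log ((K * h' : ℕ) : ℝ) / Real.log b + 1) / r := by
    rw [div_lt_iff₀ hrr, add_mul, div_mul_cancel₀ _ hrr.ne']
    linarith
  have h11 : A0 + 2 + (Real.log ((K * h' : ℕ) : ℝ) / Real.log b + 1) / r ≤ q * Real.log X := by
    rw [div_le_iff₀ hq0] at hX1
    linarith
  have h12 : q * Real.log X ≤ A := by
    have hA0r : (0 : ℝ) ≤ A0 := Nat.cast_nonneg A0
    linarith
  have h13 : A0 ≤ A := by
    have h14 : 0 ≤ (Real.log ((K * h' : ℕ) : ℝ) / Real.log b + 1) / r := by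
      have : 0 ≤ Real.log ((K * h' : ℕ) : ℝ) := Real.log_natCast_nonneg _
      positivity
    have h15 : (A0 : ℝ) ≤ A := by linarith
    exact_mod_cast h15
  have h14 := hmain A X h13 h3
  set n : ℝ := (Set.ncard {m : ℕ | 1 ≤ m ∧ m ≤ X ∧ ¬ b ∣ m ∧ ¬ SimplyNormal b (m * x)} : ℝ) with hn
  have hlX : 0 < Real.log X := by linarith
  have h15 : c * (q * Real.log X) ^ r ≤ K * n := by
    refine le_trans ?_ h14
    apply mul_le_mul_of_nonneg_left _ hc.le
    exact pow_le_pow_left₀ (by positivity) h12 r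
  rw [div_le_iff₀ (by positivity)] at hX2
  have h16 : K * Real.log X ^ B ≤ c * (q * Real.log X) ^ r := by
    rw [mul_pow]
    have e : c * (q ^ r * Real.log X ^ r) = (Real.log X * (c * q ^ r)) * Real.log X ^ B := by
      rw [hr, pow_succ (Real.log X) B]; ring
    rw [e]
    exact mul_le_mul_of_nonneg_right hX2 (by positivity)
  have h17 : K * Real.log X ^ B ≤ K * n := h16.trans h15
  exact le_of_mul_le_mul_left h17 hKr

end Pool.Agent.Helper61A.DS
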