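import Mathlib
import Pool.Agent.Helper61A.DS.Exc3

/-! The finite version for words. -/

set_option autoImplicit false

namespace Pool.Agent.Helper61A.DS

open Finset Filter Topology
open scoped Real

/-- the finite version for words -/
theorem finite_words {b : ℕ} (hb : 3 ≤ b) {ε : ℝ} (hε : 0 < ε) : ∃ M : ℕ, 1 ≤ M ∧ ∀ (x : ℝ) (N : ℕ),
    (∀ m : ℕ, 1 ≤ m → m ≤ M → ∀ d : ℕ, d < b →
      |(((range N).filter (fun i : ℕ => ⌊(m : ℝ) * x * (b : ℝ) ^ (i + 1)⌋ % (b : ℤ) = (d : ℤ))).card : ℝ) -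
        N / b| ≤ N / M) →
    ∀ k : ℕ, 0 < k → ∀ w : Fin k → Fin b,
      |(((range N).filter (fun i : ℕ => ∀ j : Fin k,
        ⌊x * (b : ℝ) ^ (i + 1 + (j : ℕ))⌋ % (b : ℤ) = ((w j : ℕ) : ℤ))).card : ℝ) - N / (b : ℝ) ^ k| ≤ ε * N := by
  obtain ⟨M, hM, h⟩ := finite_version hb hε
  refine ⟨M, hM, fun x N hx k hk w => ?_⟩
  have hb0 : 0 < b := by omega
  have hb' : (0 : ℝ) < b := by exact_mod_cast hb0
  obtain ⟨c, hc1, hc2⟩ := word_iff hb0 k w
  have hbk : (0 : ℝ) < (b : ℝ) ^ k := by positivity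
  have hc3 : ((c : ℝ) + 1) ≤ (b : ℝ) ^ k := by exact_mod_cast hc1
  have h1 := h (range N) (fun i => x * (b : ℝ) ^ i) (by
    intro m hm d hd
    obtain ⟨hm1, hm2⟩ := mem_Icc.1 hm
    have h2 := hx m hm1 hm2 d hd
    rw [card_range]
    refine le_trans (le_of_eq ?_) h2
    congr 4
    refine filter_congr fun i _ => ?_
    rw [dig_pow]
    have : (m : ℝ) * x * (b : ℝ) ^ i = m * (x * (b : ℝ) ^ i) := by ring
    rw [this]) ((c : ℝ) / (b : ℝ) ^ k) (((c : ℝ) + 1) / (b : ℝ) ^ k) (by positivity)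
    (by apply div_le_div_of_nonneg_right _ hbk.le; linarith) (by rw [div_le_one hbk]; exact hc3)
  rw [card_range] at h1
  refine le_trans (le_of_eq ?_) h1
  have e : (((c : ℝ) + 1) / (b : ℝ) ^ k - (c : ℝ) / (b : ℝ) ^ k) * N = N / (b : ℝ) ^ k := by ring
  rw [e]
  congr 4
  refine filter_congr fun i _ => ?_
  rw [← hc2 (x * (b : ℝ) ^ i)]
  refine forall_congr' fun j => ?_
  have : x * (b : ℝ) ^ i * (b : ℝ) ^ ((j : ℕ) + 1) = x * (b : ℝ) ^ (i + 1 + (j : ℕ)) := by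
    rw [mul_assoc, ← pow_add]; congr 2; omega
  rw [this]

/-- the equivalence -/
theorem normal_iff {b : ℕ} (hb : 3 ≤ b) (x : ℝ) :
    Normal b x ↔ ∀ m : ℕ, 1 ≤ m → SimplyNormal b ((m : ℝ) * x) := by
  constructor
  · intro h m hm
    exact simply_of_normal (by omega) h m hm
  · intro h
    refine normal_of_weyl (by omega) fun t ht η hη => ?_
    obtain ⟨K, hK1, hK⟩ := key_ev hb hη
    exact hK x t fun k hk _ => h (k * t) (Nat.mul_pos (mem_Icc.1 hk).1 ht)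

end Pool.Agent.Helper61A.DS
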